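import Pool.Agent.Q92.BX.Freq

/-!
The frequency lemma for concatenations and the main theorem.
-/

open Set Filter Topology MeasureTheory
open scoped ENNReal

namespace Q92.BX

variable {m : ℕ}

/-- Block structure: bounds valid on the next block. -/
lemma block_bounds {C : ℕ → ℕ} {P Q η η' : ℝ} {a K ℓ N' K' ℓ' : ℕ} {b : ℕ} (hb : b = a + (K + ℓ))
    (hP0 : 0 ≤ P) (hQ1 : Q ≤ 1) (_hQ0 : 0 ≤ Q) (hη : 0 < η) (hη' : η' ≤ η)
    (hCa : C a ≤ a)
    (hK1 : (C (a + K) : ℝ) - C a ≤ (P + η) * K) (hK2 : (Q - η) * K ≤ (C (a + K) : ℝ) - C a)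
    (hmono : Monotone C) (hlip : ∀ x y, C (x + y) ≤ C x + y)
    (ha : (a : ℝ) ≤ η * K) (hℓ : (ℓ : ℝ) ≤ η * K) (hN' : (N' : ℝ) ≤ η * K)
    (hℓ' : (ℓ' : ℝ) ≤ η * K')
    (h1 : ∀ i, N' ≤ i → i ≤ K' → (Q - η') * i ≤ (C (b + i) : ℝ) - C b ∧
      (C (b + i) : ℝ) - C b ≤ (P + η') * i)
    {n : ℕ} (hn : b ≤ n) (hn' : n ≤ b + (K' + ℓ')) :
    (Q - 5 * η) * n ≤ C n ∧ (C n : ℝ) ≤ (P + 5 * η) * n := by
  have hbr : (b : ℝ) = a + (K + ℓ) := by rw [hb]; push_cast; ring
  have hK0 : (0 : ℝ) ≤ K := Nat.cast_nonneg _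
  have ha0 : (0 : ℝ) ≤ a := Nat.cast_nonneg _
  have hℓ0 : (0 : ℝ) ≤ ℓ := Nat.cast_nonneg _
  have hKb : (K : ℝ) ≤ b := by rw [hbr]; linarith
  have hηK : 0 ≤ η * K := by positivity
  have hηb : η * K ≤ η * b := mul_le_mul_of_nonneg_left hKb hη.le
  -- values at `b`
  have hCb1 : (C b : ℝ) ≤ (P + 3 * η) * b := by
    have e1 : C b ≤ C (a + K) + ℓ := by
      rw [hb, ← add_assoc]; exact hlip _ _
    have e2 : (C b : ℝ) ≤ C (a + K) + ℓ := by exact_mod_cast e1
    have e3 : (C a : ℝ) ≤ a := by exact_mod_cast hCa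
    have e4 : P * K ≤ P * b := mul_le_mul_of_nonneg_left hKb hP0
    nlinarith
  have hCb2 : (Q - 3 * η) * b ≤ C b := by
    have e1 : C (a + K) ≤ C b := hmono (by omega)
    have e2 : (C (a + K) : ℝ) ≤ C b := by exact_mod_cast e1
    have e3 : (0 : ℝ) ≤ C a := Nat.cast_nonneg _
    have e4 : Q * b = Q * a + Q * K + Q * ℓ := by rw [hbr]; ring
    have e5 : Q * a ≤ a := by nlinarith
    have e6 : Q * ℓ ≤ ℓ := by nlinarith
    nlinarith
  -- decompose `n`
  obtain ⟨i, rfl⟩ := Nat.exists_eq_add_of_le hn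
  have hi : i ≤ K' + ℓ' := by omega
  have hi0 : (0 : ℝ) ≤ i := Nat.cast_nonneg _
  have hb0 : (0 : ℝ) ≤ b := Nat.cast_nonneg _
  have hcase : ∀ i : ℕ, i ≤ K' → (Q - 4 * η) * (b + i) ≤ C (b + i) ∧
      (C (b + i) : ℝ) ≤ (P + 4 * η) * (b + i) := by
    intro i hiK
    have hi0 : (0 : ℝ) ≤ i := Nat.cast_nonneg _
    have hηi : η' * i ≤ η * i := mul_le_mul_of_nonneg_right hη' hi0
    by_cases hiN : N' ≤ i
    · obtain ⟨h2, h3⟩ := h1 i hiN hiK
      constructor
      · nlinarith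
      · nlinarith
    · have hiN' : (i : ℝ) ≤ N' := by exact_mod_cast (not_le.1 hiN).le
      have e1 : (C (b + i) : ℝ) ≤ C b + i := by exact_mod_cast hlip b i
      have e2 : (C b : ℝ) ≤ C (b + i) := by exact_mod_cast hmono (Nat.le_add_right b i)
      have e3 : Q * i ≤ i := by nlinarith
      have e4 : 0 ≤ P * i := mul_nonneg hP0 hi0
      have e5 : 0 ≤ η * i := mul_nonneg hη.le hi0
      constructor
      · nlinarith
      · nlinarith
  push_cast
  by_cases hiK : i ≤ K'
  · obtain ⟨h2, h3⟩ := hcase i hiK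
    have e5 : 0 ≤ η * i := mul_nonneg hη.le hi0
    have e6 : 0 ≤ η * b := mul_nonneg hη.le hb0
    constructor
    · nlinarith
    · nlinarith
  · obtain ⟨r, rfl⟩ := Nat.exists_eq_add_of_le (not_le.1 hiK).le
    obtain ⟨h2, h3⟩ := hcase K' le_rfl
    have hr0 : (0 : ℝ) ≤ r := Nat.cast_nonneg _
    have hr : (r : ℝ) ≤ ℓ' := by
      have : r ≤ ℓ' := by omega
      exact_mod_cast this
    have hK'0 : (0 : ℝ) ≤ K' := Nat.cast_nonneg _
    have e1 : C (b + (K' + r)) ≤ C (b + K') + r := by rw [← add_assoc]; exact hlip _ _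
    have e1' : (C (b + (K' + r)) : ℝ) ≤ C (b + K') + r := by exact_mod_cast e1
    have e2 : C (b + K') ≤ C (b + (K' + r)) := hmono (by omega)
    have e2' : (C (b + K') : ℝ) ≤ C (b + (K' + r)) := by exact_mod_cast e2
    have e3 : Q * r ≤ r := by nlinarith
    have e4 : 0 ≤ P * r := mul_nonneg hP0 hr0
    have e5 : 0 ≤ η * r := mul_nonneg hη.le hr0
    have e6 : 0 ≤ η * b := mul_nonneg hη.le hb0
    push_cast
    constructor
    · nlinarith
    · nlinarith

/-- The frequency lemma. -/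
lemma freq_of_blocks {p q : Fin (m + 1) → ℝ} (hp : ∀ k, p k ∈ Icc (0 : ℝ) 1)
    (hq : ∀ k, q k ∈ Icc (0 : ℝ) 1) {s : ℕ → Fin (m + 1)} {n K ℓ N L : ℕ → ℕ} {η : ℕ → ℝ}
    (hn : ∀ j, n (j + 1) = n j + (K j + ℓ j)) (hη0 : ∀ j, 0 < η j) (hη : Antitone η)
    (hηt : Tendsto η atTop (𝓝 0)) (hL1 : ∀ j, 1 ≤ K j)
    (hnL : ∀ j, (n j : ℝ) ≤ η j * L j) (hLK : ∀ j, L j ≤ K j) (hLj : ∀ j, j ≤ L j)
    (hℓK : ∀ j, (ℓ j : ℝ) ≤ η j * K j) (hNK : ∀ j, (N (j + 1) : ℝ) ≤ η j * K j)
    (hNK' : ∀ j, N j ≤ K j)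
    (hgood : ∀ j, (fun i => s (n j + i)) ∈ GoodW p q (N j) (L j) (η j) (K j)) (k : Fin (m + 1)) :
    limsup (fun n : ℕ => (cnt k s n : ℝ) / n) atTop = p k ∧
      liminf (fun n : ℕ => (cnt k s n : ℝ) / n) atTop = q k := by
  have hmono : Monotone (cnt k s) := monotone_nat_of_le_succ fun i => by
    rw [cnt_succ]; omega
  have hlip : ∀ x y, cnt k s (x + y) ≤ cnt k s x + y := by
    intro x y
    rw [cnt_add]
    have := cnt_le k (fun i => s (x + i)) y
    omega
  have hsm : StrictMono n := strictMono_nat_of_lt_succ fun j => by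
    have := hL1 j; rw [hn]; omega
  have hloc : ∀ j i, ((cnt k s (n j + i) : ℕ) : ℝ) - cnt k s (n j) =
      cnt k (fun i => s (n j + i)) i := by
    intro j i
    rw [cnt_add]; push_cast; ring
  have hnK : ∀ j, (n j : ℝ) ≤ η j * K j := fun j =>
    (hnL j).trans (mul_le_mul_of_nonneg_left (by exact_mod_cast hLK j) (hη0 j).le)
  have hblock : ∀ j, ∀ i, n (j + 1) ≤ i → i ≤ n (j + 2) →
      (q k - 5 * η j) * i ≤ cnt k s i ∧ (cnt k s i : ℝ) ≤ (p k + 5 * η j) * i := by
    intro j i hi1 hi2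
    have hg := (hgood j).1 k
    have hg' := (hgood (j + 1)).1 k
    refine block_bounds (C := cnt k s) (a := n j) (K := K j) (ℓ := ℓ j) (N' := N (j + 1))
      (K' := K (j + 1)) (ℓ' := ℓ (j + 1)) (η' := η (j + 1)) (hn j) (hp k).1 (hq k).2 (hq k).1
      (hη0 j) (hη (Nat.le_succ j)) (cnt_le k s _) ?_ ?_ hmono hlip (hnK j) (hℓK j) (hNK j) ?_ ?_
      hi1 (by rw [← hn]; exact hi2)
    · rw [hloc]
      exact (hg (K j) (hNK' j) le_rfl).2
    · rw [hloc]
      exact (hg (K j) (hNK' j) le_rfl).1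
    · refine (hℓK (j + 1)).trans ?_
      exact mul_le_mul_of_nonneg_right (hη (Nat.le_succ j)) (Nat.cast_nonneg _)
    · intro i' hi' hi''
      rw [hloc]
      exact hg' i' hi' hi''
  have hall : ∀ j, ∀ i, n (j + 1) ≤ i →
      (q k - 5 * η j) * i ≤ cnt k s i ∧ (cnt k s i : ℝ) ≤ (p k + 5 * η j) * i := by
    intro j i hi
    -- find the block
    have hex : ∃ r, i ≤ n (r + 2) := ⟨i, by
      have := hsm.id_le (i + 2); simp only [id] at this; omega⟩
    classical
    set r := Nat.find hex with hr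
    have hr1 : i ≤ n (r + 2) := Nat.find_spec hex
    by_cases hjr : j ≤ r
    · have hr2 : n (r + 1) ≤ i := by
        rcases Nat.eq_zero_or_pos r with h0 | hpos
        · have : j = 0 := by omega
          rw [h0]; rw [this] at hi; exact hi
        · have := Nat.find_min hex (m := r - 1) (by omega)
          rw [show r - 1 + 2 = r + 1 by omega] at this
          omega
      obtain ⟨h1, h2⟩ := hblock r i hr2 hr1
      have hηr : η r ≤ η j := hη hjr
      have hi0 : (0 : ℝ) ≤ i := Nat.cast_nonneg _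
      have := mul_le_mul_of_nonneg_right hηr hi0
      constructor
      · nlinarith
      · nlinarith
    · have h3 : n (r + 2) ≤ n (j + 1) := hsm.monotone (by omega)
      exact hblock j i hi (by
        have : n (j + 1) ≤ n (j + 2) := hsm.monotone (by omega)
        omega)
  have hsmall : ∀ ε > 0, ∃ j, 5 * η j ≤ ε := by
    intro ε hε
    have := (hηt.eventually_lt_const (show (0 : ℝ) < ε / 5 by positivity)).exists
    obtain ⟨j, hj⟩ := this
    exact ⟨j, by linarith⟩
  have hsmall' : ∀ ε > 0, ∀ᶠ j in atTop, 5 * η j ≤ ε := by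
    intro ε hε
    have := (hηt.eventually_lt_const (show (0 : ℝ) < ε / 5 by positivity))
    exact this.mono fun j hj => by linarith
  rw [limsup_eq_iff (cnt_div_nonneg k s) (cnt_div_le_one k s),
    liminf_eq_iff (cnt_div_nonneg k s) (cnt_div_le_one k s)]
  refine ⟨⟨fun ε hε => ?_, fun ε hε => ?_⟩, ⟨fun ε hε => ?_, fun ε hε => ?_⟩⟩
  · obtain ⟨j, hj⟩ := hsmall ε hε
    filter_upwards [eventually_ge_atTop (max (n (j + 1)) 1)] with i hi
    have hi0 : (0 : ℝ) < i := by
      have : 1 ≤ i := (le_max_right _ _).trans hi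
      exact_mod_cast this
    rw [div_le_iff₀ hi0]
    have := (hall j i ((le_max_left _ _).trans hi)).2
    nlinarith
  · rw [Filter.frequently_atTop]
    intro a
    obtain ⟨j, hj, hja⟩ := ((hsmall' ε hε).and (eventually_ge_atTop (max a 1))).exists
    obtain ⟨i, hi1, hi2, hi3⟩ := (hgood j).2.1 k
    refine ⟨n j + i, ?_, ?_⟩
    · have := hLj j
      have : a ≤ j := (le_max_left _ _).trans hja
      omega
    · have hj1 : 1 ≤ j := (le_max_right _ _).trans hja
      have hi1' : 1 ≤ i := by have := hLj j; omega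
      have hi0 : (0 : ℝ) < i := by exact_mod_cast hi1'
      have hn0 : (0 : ℝ) ≤ n j := Nat.cast_nonneg _
      push_cast
      rw [le_div_iff₀ (by linarith)]
      have e1 := hloc j i
      have e2 : (0 : ℝ) ≤ cnt k s (n j) := Nat.cast_nonneg _
      have e3 : (n j : ℝ) ≤ η j * i := (hnL j).trans
        (mul_le_mul_of_nonneg_left (by exact_mod_cast hi1) (hη0 j).le)
      have e4 : p k * n j ≤ n j := by nlinarith [(hp k).2]
      have e5 : 0 < ε * n j + ε * i := by positivity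
      have e6 : η j * i * 5 ≤ ε * i := by nlinarith
      nlinarith
  · obtain ⟨j, hj⟩ := hsmall ε hε
    filter_upwards [eventually_ge_atTop (max (n (j + 1)) 1)] with i hi
    have hi0 : (0 : ℝ) < i := by
      have : 1 ≤ i := (le_max_right _ _).trans hi
      exact_mod_cast this
    rw [le_div_iff₀ hi0]
    have := (hall j i ((le_max_left _ _).trans hi)).1
    nlinarith
  · rw [Filter.frequently_atTop]
    intro a
    obtain ⟨j, hj, hja⟩ := ((hsmall' ε hε).and (eventually_ge_atTop (max a 1))).exists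
    obtain ⟨i, hi1, hi2, hi3⟩ := (hgood j).2.2 k
    refine ⟨n j + i, ?_, ?_⟩
    · have := hLj j
      have : a ≤ j := (le_max_left _ _).trans hja
      omega
    · have hj1 : 1 ≤ j := (le_max_right _ _).trans hja
      have hi1' : 1 ≤ i := by have := hLj j; omega
      have hi0 : (0 : ℝ) < i := by exact_mod_cast hi1'
      have hn0 : (0 : ℝ) ≤ n j := Nat.cast_nonneg _
      push_cast
      rw [div_le_iff₀ (by linarith)]
      have e1 := hloc j i
      have e2 : (cnt k s (n j) : ℝ) ≤ n j := by exact_mod_cast cnt_le k s (n j)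
      have e3 : (n j : ℝ) ≤ η j * i := (hnL j).trans
        (mul_le_mul_of_nonneg_left (by exact_mod_cast hi1) (hη0 j).le)
      have e4 : 0 ≤ q k * n j := mul_nonneg (hq k).1 hn0
      have e5 : 0 ≤ ε * n j := by positivity
      have e6 : η j * i * 5 ≤ ε * i := by nlinarith
      nlinarith

/-- The parameter `δ`. -/
noncomputable def dl (m : ℕ) (ℓf : ℝ≥0∞ → ℕ) (τ : ℝ≥0∞) : ℕ → ℝ≥0∞
  | 0 => τ
  | j + 1 => (dl m ℓf τ j / 16) / ((m + 1 : ℕ) : ℝ≥0∞) ^ (ℓf (dl m ℓf τ j / 16))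

lemma dl_ne_zero (m : ℕ) (ℓf : ℝ≥0∞ → ℕ) {τ : ℝ≥0∞} (hτ : τ ≠ 0) (j : ℕ) :
    dl m ℓf τ j ≠ 0 := by
  induction j with
  | zero => exact hτ
  | succ j ih =>
    rw [dl]
    refine (ENNReal.div_pos (ENNReal.div_pos ih (by norm_num)).ne' ?_).ne'
    exact ENNReal.pow_ne_top (ENNReal.natCast_ne_top _)

/-- Main theorem, from the good hypothesis to continuum many expansions. -/
theorem continuum_of_goodHyp {β : ℝ} (hβ : 1 < β) (hm : β < m + 1) (hm1 : 1 ≤ m)
    {p q : Fin (m + 1) → ℝ} (hp : ∀ k, p k ∈ Icc (0 : ℝ) 1) (hq : ∀ k, q k ∈ Icc (0 : ℝ) 1)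
    (hG : GoodHyp β p q) :
    ∀ᵐ x ∂(volume.restrict (II m β)), Cardinal.mk (EE β p q x) = Cardinal.continuum := by
  classical
  -- it suffices to bound the bad set
  have key : ∀ τ : ℝ≥0∞, τ ≠ 0 → ∃ A : Set ℝ, volume (II m β \ A) ≤ τ ∧
      ∀ x ∈ A, Cardinal.mk (EE β p q x) = Cardinal.continuum := by
    intro τ hτ
    have hRex : ∀ τ : ℝ≥0∞, ∃ l, τ ≠ 0 → volume (II m β \ RR m β l) ≤ τ := by
      intro τ
      by_cases h : τ = 0
      · exact ⟨0, fun h' => absurd h h'⟩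
      · obtain ⟨l, hl⟩ := RR_full hβ hm hm1 h
        exact ⟨l, fun _ => hl⟩
    choose ℓf hℓf using hRex
    have hη0 : ∀ j : ℕ, (0 : ℝ) < 1 / ((j : ℝ) + 1) := fun j => by positivity
    set δ := dl m ℓf τ with hδdef
    have hδ0 : ∀ j, δ j ≠ 0 := dl_ne_zero m ℓf hτ
    have hNex : ∀ j : ℕ, ∃ N : ℕ, ∀ L : ℕ, ∃ K₀ : ℕ, ∀ K, K₀ ≤ K →
        volume (II m β \ HH β p q N L (1 / ((j : ℝ) + 1)) K) ≤ δ j / 2 := fun j =>
      hG _ (hη0 j) _ (ENNReal.div_pos (hδ0 j) (by norm_num)).ne'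
    choose N hN using hNex
    choose K₀ hK₀ using hN
    set ℓ : ℕ → ℕ := fun j => ℓf (δ j / 16) with hℓ
    -- `L` and `K` as functions of `n`
    let Lf : ℕ → ℕ → ℕ := fun j n => max (n * (j + 1)) j
    let Kf : ℕ → ℕ → ℕ := fun j n =>
      Lf j n + K₀ j (Lf j n) + N (j + 1) * (j + 1) + ℓ j * (j + 1) + N j + 1
    let n : ℕ → ℕ := fun j => Nat.rec 0 (fun j n => n + (Kf j n + ℓ j)) j
    have hn0 : n 0 = 0 := rfl
    have hn : ∀ j, n (j + 1) = n j + (Kf j (n j) + ℓ j) := fun j => rfl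
    set L : ℕ → ℕ := fun j => Lf j (n j) with hL
    set K : ℕ → ℕ := fun j => Kf j (n j) with hK
    have hKeq : ∀ j, K j = L j + K₀ j (L j) + N (j + 1) * (j + 1) + ℓ j * (j + 1) + N j + 1 :=
      fun j => rfl
    let V : ∀ j, Set (Fin (K j) → Fin (m + 1)) := fun j =>
      {v | ext m (K j) v ∈ GoodW p q (N j) (L j) (1 / ((j : ℝ) + 1)) (K j)}
    refine ⟨Ginf m β K ℓ V 0, ?_, ?_⟩
    · have h0 : τ = δ 0 := rfl
      rw [h0]
      refine Ginf_measure hβ hm1 ?_ ?_ ?_ 0
      · intro j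
        exact hK₀ j (L j) (K j) (by rw [hKeq]; omega)
      · intro j
        exact hℓf _ (ENNReal.div_pos (hδ0 j) (by norm_num)).ne'
      · intro j
        have h1 : δ (j + 1) = (δ j / 16) / ((m + 1 : ℕ) : ℝ≥0∞) ^ (ℓ j) := rfl
        rw [h1]
        exact ENNReal.mul_div_le
    · intro x hx
      have hlen : ∀ j, 1 ≤ K j + ℓ j := fun j => by rw [hKeq]; omega
      obtain ⟨ε, hinj, hε⟩ := engine hβ hlen n hn0 hn hx
      apply le_antisymm
      · refine (Cardinal.mk_set_le _).trans ?_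
        rw [Cardinal.mk_arrow]
        simp only [Cardinal.mk_fintype, Fintype.card_fin, Cardinal.lift_natCast, Cardinal.mk_nat,
          Cardinal.lift_aleph0]
        refine (Cardinal.power_le_power_right (c := Cardinal.aleph0)
          (Cardinal.natCast_le_aleph0 (n := m + 1))).trans ?_
        rw [Cardinal.aleph0_power_aleph0]
      · have hmem : ∀ b, ε b ∈ EE β p q x := by
          intro b
          refine ⟨(hasSum_iff hβ).2 (hε b).1, ?_⟩
          have hj1 : ∀ j : ℕ, (0 : ℝ) < (j : ℝ) + 1 := fun j => by positivity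
          refine freq_of_blocks hp hq (n := n) (K := K) (ℓ := ℓ) (N := N) (L := L)
            (η := fun j => 1 / ((j : ℝ) + 1)) hn hη0 ?_ ?_ ?_ ?_ ?_ ?_ ?_ ?_ ?_ ?_
          · intro i j hij
            have : (i : ℝ) ≤ j := by exact_mod_cast hij
            have := hj1 i
            simp only
            gcongr
          · exact tendsto_one_div_add_atTop_nhds_zero_nat
          · intro j; rw [hKeq]; omega
          · intro j
            rw [one_div, ← div_eq_inv_mul, le_div_iff₀ (hj1 j)]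
            have : n j * (j + 1) ≤ L j := le_max_left _ _
            exact_mod_cast this
          · intro j; rw [hKeq]; omega
          · intro j; exact le_max_right _ _
          · intro j
            rw [one_div, ← div_eq_inv_mul, le_div_iff₀ (hj1 j)]
            have : ℓ j * (j + 1) ≤ K j := by rw [hKeq]; omega
            exact_mod_cast this
          · intro j
            rw [one_div, ← div_eq_inv_mul, le_div_iff₀ (hj1 j)]
            have : N (j + 1) * (j + 1) ≤ K j := by rw [hKeq]; omega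
            exact_mod_cast this
          · intro j; rw [hKeq]; omega
          · intro j
            have h1 := (hε b).2 j
            refine GoodW_congr (fun i hi => ?_) h1
            simp [ext, hi]
        have h1 : Cardinal.mk (ℕ → Bool) ≤ Cardinal.mk (EE β p q x) :=
          Cardinal.mk_le_of_injective (f := fun b => (⟨ε b, hmem b⟩ : EE β p q x))
            fun b b' h => hinj (by simpa using congrArg Subtype.val h)
        have h2 : Cardinal.mk (ℕ → Bool) = Cardinal.continuum := by simp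
        rw [← h2]
        exact h1
  rw [ae_restrict_iff' (II_closed m β).measurableSet]
  have : volume {x | ¬ (x ∈ II m β → Cardinal.mk (EE β p q x) = Cardinal.continuum)} = 0 := by
    by_contra hne
    obtain ⟨A, hA, hA'⟩ := key (volume {x | ¬ (x ∈ II m β →
      Cardinal.mk (EE β p q x) = Cardinal.continuum)} / 2) (ENNReal.div_pos hne (by norm_num)).ne'
    have hsub : {x | ¬ (x ∈ II m β → Cardinal.mk (EE β p q x) = Cardinal.continuum)} ⊆
        II m β \ A := by
      intro x hx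
      simp only [mem_ofPred_eq, Classical.not_imp] at hx
      exact ⟨hx.1, fun h => hx.2 (hA' x h)⟩
    have h1 := (measure_mono hsub).trans hA
    have hfin : volume {x | ¬ (x ∈ II m β → Cardinal.mk (EE β p q x) = Cardinal.continuum)} ≠ ⊤ :=
      ((measure_mono (hsub.trans sdiff_subset)).trans_lt (by
        rw [II, Real.volume_Icc]; exact ENNReal.ofReal_lt_top)).ne
    exact absurd h1 (not_le.2 (ENNReal.half_lt_self hne hfin))
  exact this

/-- The equivalence. -/
theorem equivalence {β : ℝ} (hβ : 1 < β) (hm : β < m + 1) (hm1 : 1 ≤ m)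
    {p q : Fin (m + 1) → ℝ} (hp : ∀ k, p k ∈ Icc (0 : ℝ) 1) (hq : ∀ k, q k ∈ Icc (0 : ℝ) 1) :
    (∀ᵐ x ∂(volume.restrict (II m β)), (EE β p q x).Nonempty) ↔
      ∀ᵐ x ∂(volume.restrict (II m β)), Cardinal.mk (EE β p q x) = Cardinal.continuum := by
  constructor
  · intro h
    exact continuum_of_goodHyp hβ hm hm1 hp hq (goodHyp_of_nonempty hβ h)
  · intro h
    filter_upwards [h] with x hx
    rw [← Set.nonempty_coe_sort, ← Cardinal.mk_ne_zero_iff, hx]
    exact Cardinal.continuum_ne_zero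

end Q92.BX
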