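import Pool.Agent.Q92.BX.Inv
import Pool.Agent.Q92.BX.Main

/-!
Balanced expansions.
-/

open Set Filter Topology MeasureTheory
open scoped ENNReal

namespace Q92.BX

variable {m : ℕ}

/-- The offset. -/
noncomputable def gam (m : ℕ) (β : ℝ) : ℝ := (m + 1 - β) / 2

/-- The left endpoint of the central unit interval. -/
noncomputable def aa (m : ℕ) (β : ℝ) : ℝ := (m / (β - 1) - 1) / 2

lemma aa_rel {β : ℝ} (hβ : 1 < β) : β * aa m β = aa m β + gam m β := by
  unfold aa gam
  have : β - 1 ≠ 0 := by linarith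
  field_simp
  ring

lemma digit_range {β : ℝ} (hβ : 1 < β) (hm : β < m + 1) (hm2 : (m : ℝ) ≤ β) {z : ℝ}
    (hz : z ∈ Ico (0 : ℝ) 1) :
    0 ≤ ⌊β * z + gam m β⌋ ∧ ⌊β * z + gam m β⌋ ≤ m := by
  obtain ⟨h1, h2⟩ := hz
  have hβz : 0 ≤ β * z := mul_nonneg (by linarith) h1
  have hβz' : β * z < β := by nlinarith
  constructor
  · rw [Int.floor_nonneg]
    unfold gam
    linarith
  · rw [← Int.lt_add_one_iff, Int.floor_lt]
    unfold gam
    push_cast
    linarith

/-- The digit as an element of the alphabet. -/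
noncomputable def dig (m : ℕ) (β : ℝ) (z : ℝ) : Fin (m + 1) :=
  if h : ⌊β * z + gam m β⌋.toNat < m + 1 then ⟨⌊β * z + gam m β⌋.toNat, h⟩ else 0

lemma dig_val {β : ℝ} (hβ : 1 < β) (hm : β < m + 1) (hm2 : (m : ℝ) ≤ β) {z : ℝ}
    (hz : z ∈ Ico (0 : ℝ) 1) : ((dig m β z : ℕ) : ℤ) = ⌊β * z + gam m β⌋ := by
  obtain ⟨h1, h2⟩ := digit_range hβ hm hm2 hz
  unfold dig
  rw [dif_pos (by omega)]
  simp only
  omega

lemma TT_mem (β γ z : ℝ) : TT β γ z ∈ Ico (0 : ℝ) 1 := ⟨TT_nonneg _ _ _, TT_lt_one _ _ _⟩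

lemma TT_iter_mem (β γ : ℝ) {z : ℝ} (hz : z ∈ Ico (0 : ℝ) 1) (n : ℕ) :
    (TT β γ)^[n] z ∈ Ico (0 : ℝ) 1 := by
  cases n with
  | zero => exact hz
  | succ n => rw [Function.iterate_succ_apply']; exact TT_mem _ _ _

/-- The orbit of a point in the central interval. -/
lemma X_central {β : ℝ} (hβ : 1 < β) (hm : β < m + 1) (hm2 : (m : ℝ) ≤ β) {z : ℝ}
    (hz : z ∈ Ico (0 : ℝ) 1) (n : ℕ) :
    X β (z + aa m β) (fun n => dig m β ((TT β (gam m β))^[n] z)) n =
      (TT β (gam m β))^[n] z + aa m β := by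
  induction n with
  | zero => rfl
  | succ n ih =>
    rw [X_succ, ih, Function.iterate_succ_apply']
    set y := (TT β (gam m β))^[n] z with hy
    have hyI : y ∈ Ico (0 : ℝ) 1 := TT_iter_mem _ _ hz n
    have h1 : (((dig m β y : ℕ) : ℝ)) = ((⌊β * y + gam m β⌋ : ℤ) : ℝ) := by
      rw [← dig_val hβ hm hm2 hyI]; push_cast; rfl
    rw [h1, TT, Int.fract, mul_add, aa_rel hβ]
    ring

lemma aa_pos {β : ℝ} (hβ : 1 < β) (hm : β < m + 1) : 0 < aa m β := by
  unfold aa
  have : 1 < (m : ℝ) / (β - 1) := by rw [lt_div_iff₀ (by linarith)]; linarith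
  linarith

/-- Points with an expansion of exact frequencies `p`. -/
def FF (m : ℕ) (β : ℝ) (p : Fin (m + 1) → ℝ) : Set ℝ :=
  {x | ∃ s : ℕ → Fin (m + 1), (∀ n, X β x s n ∈ II m β) ∧
    ∀ k, Tendsto (fun n : ℕ => (cnt k s n : ℝ) / n) atTop (𝓝 (p k))}

lemma cnt_eq_sum (k : Fin (m + 1)) (s : ℕ → Fin (m + 1)) (n : ℕ) :
    (cnt k s n : ℝ) = ∑ j ∈ Finset.range n, if s j = k then (1 : ℝ) else 0 := by
  induction n with
  | zero => simp [cnt]
  | succ n ih =>
    rw [cnt_succ, Finset.sum_range_succ, ← ih]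
    push_cast
    split_ifs <;> simp

/-- The frequencies exist on the central interval. -/
lemma central {β : ℝ} (hβ : 2 < β) (hm : β < m + 1) (hm2 : (m : ℝ) ≤ β) :
    ∃ p : Fin (m + 1) → ℝ, (∀ k, p k ∈ Icc (0 : ℝ) 1) ∧ (∀ k, p k = p (Fin.rev k)) ∧
      volume {x | x ∈ Ico (aa m β) (aa m β + 1) ∧ x ∉ FF m β p} = 0 := by
  classical
  have hβ1 : 1 < β := by linarith
  set γ := gam m β with hγ
  obtain ⟨P, hP⟩ := exists_freq (γ := γ) hβ
  set bad : ℤ → Set ℝ := fun k => {z | z ∈ Ico (0 : ℝ) 1 ∧ ¬ Tendsto (fun n : ℕ => (n : ℝ)⁻¹ *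
      ∑ j ∈ Finset.range n, ind β γ k ((TT β γ)^[j] z)) atTop (𝓝 (P k))} with hbad
  set badU : Set ℝ := ⋃ k, bad k with hbadU
  have hbadU0 : volume badU = 0 := measure_iUnion_null hP
  have hgood : ∀ z ∈ Ico (0 : ℝ) 1, z ∉ badU → ∀ k : ℤ, Tendsto (fun n : ℕ => (n : ℝ)⁻¹ *
      ∑ j ∈ Finset.range n, ind β γ k ((TT β γ)^[j] z)) atTop (𝓝 (P k)) := by
    intro z hz hzb k
    by_contra hcon
    exact hzb (mem_iUnion.2 ⟨k, hz, hcon⟩)
  -- zero hitting set
  set hit : Set ℝ := ⋃ n : ℕ, ((TT β γ)^[n + 1] ⁻¹' {0} ∩ Ico 0 1) with hhit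
  have hhit0 : volume hit = 0 := by
    refine measure_iUnion_null fun n => ?_
    have h1 := growth' (γ := γ) hβ {0} (n + 1)
    have h2 : MM {(0 : ℝ)} 0 1 = 0 := by
      unfold MM
      have : volume ({(0 : ℝ)} ∩ Ico 0 1) = 0 :=
        measure_mono_null inter_subset_left (by simp)
      rw [this, ENNReal.toReal_zero]
    rw [h2, mul_zero] at h1
    have h3 := le_antisymm h1 (MM_nonneg _ _ _)
    rw [MM, ENNReal.toReal_eq_zero_iff] at h3
    exact h3.resolve_right (MM_ne_top _ _ _)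
  -- reflection of the bad set
  have hrefl0 : volume ((fun z : ℝ => 1 - z) ⁻¹' badU) = 0 :=
    (MeasureTheory.Measure.measurePreserving_sub_left volume (1 : ℝ)).quasiMeasurePreserving.preimage_null
      hbadU0
  -- a good point
  have hex : ∃ z ∈ Ioo (0 : ℝ) 1, z ∉ badU ∧ z ∉ hit ∧ 1 - z ∉ badU := by
    by_contra hcon
    push Not at hcon
    have hsub : Ioo (0 : ℝ) 1 ⊆ badU ∪ hit ∪ (fun z : ℝ => 1 - z) ⁻¹' badU := by
      intro z hz
      by_cases h1 : z ∈ badU
      · exact Or.inl (Or.inl h1)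
      · by_cases h2 : z ∈ hit
        · exact Or.inl (Or.inr h2)
        · exact Or.inr (hcon z hz h1 h2)
    have h1 : volume (Ioo (0 : ℝ) 1) = 0 :=
      measure_mono_null hsub (measure_union_null (measure_union_null hbadU0 hhit0) hrefl0)
    rw [Real.volume_Ioo] at h1
    simp at h1
  obtain ⟨z, hz, hz1, hz2, hz3⟩ := hex
  have hzI : z ∈ Ico (0 : ℝ) 1 := ⟨hz.1.le, hz.2⟩
  have hzI' : 1 - z ∈ Ico (0 : ℝ) 1 := ⟨by linarith [hz.2], by linarith [hz.1]⟩
  have hγβ : β + 2 * γ = m + 1 := by rw [hγ, gam]; ring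
  have hflip : ∀ n, (TT β γ)^[n] (1 - z) = 1 - (TT β γ)^[n] z ∧
      ⌊β * (TT β γ)^[n] (1 - z) + γ⌋ = m - ⌊β * (TT β γ)^[n] z + γ⌋ := by
    have hstep : ∀ y : ℝ, TT β γ y ≠ 0 → TT β γ (1 - y) = 1 - TT β γ y ∧
        ⌊β * (1 - y) + γ⌋ = m - ⌊β * y + γ⌋ := by
      intro y hy
      have hpos : 0 < Int.fract (β * y + γ) := lt_of_le_of_ne (Int.fract_nonneg _) (Ne.symm hy)
      have hlt := Int.fract_lt_one (β * y + γ)
      have e : β * (1 - y) + γ = ((m : ℤ) - ⌊β * y + γ⌋ : ℤ) + (1 - Int.fract (β * y + γ)) := by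
        have := Int.self_sub_floor (β * y + γ)
        push_cast
        linarith
      have hfl : ⌊β * (1 - y) + γ⌋ = m - ⌊β * y + γ⌋ := by
        rw [Int.floor_eq_iff, e]
        push_cast
        constructor <;> linarith
      refine ⟨?_, hfl⟩
      unfold TT
      rw [Int.fract, hfl, e]
      push_cast
      ring
    have hne : ∀ n, TT β γ ((TT β γ)^[n] z) ≠ 0 := by
      intro n h
      apply hz2
      refine mem_iUnion.2 ⟨n, ?_, hzI⟩
      rw [mem_preimage, Function.iterate_succ_apply', h]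
      rfl
    intro n
    have hiter : (TT β γ)^[n] (1 - z) = 1 - (TT β γ)^[n] z := by
      induction n with
      | zero => rfl
      | succ n ih =>
        rw [Function.iterate_succ_apply', Function.iterate_succ_apply', ih]
        exact (hstep _ (hne n)).1
    refine ⟨hiter, ?_⟩
    rw [hiter]
    exact (hstep _ (hne n)).2
  have hsym : ∀ k : ℤ, P k = P (m - k) := by
    intro k
    refine tendsto_nhds_unique (hgood z hzI hz1 k) ((hgood (1 - z) hzI' hz3 (m - k)).congr
      fun n => ?_)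
    congr 1
    refine Finset.sum_congr rfl fun j _ => ?_
    unfold ind
    rw [(hflip j).2]
    by_cases h : ⌊β * (TT β γ)^[j] z + γ⌋ = k
    · rw [if_pos h, if_pos (by omega)]
    · rw [if_neg h, if_neg (by omega)]
  -- frequencies of a central point
  have hcnt : ∀ z ∈ Ico (0 : ℝ) 1, ∀ (k : Fin (m + 1)) (n : ℕ),
      (cnt k (fun n => dig m β ((TT β γ)^[n] z)) n : ℝ) =
        ∑ j ∈ Finset.range n, ind β γ ((k : ℕ) : ℤ) ((TT β γ)^[j] z) := by
    intro z hz k n
    rw [cnt_eq_sum]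
    refine Finset.sum_congr rfl fun j _ => ?_
    have h1 := dig_val hβ1 hm hm2 (TT_iter_mem β γ hz j)
    unfold ind
    by_cases h : dig m β ((TT β γ)^[j] z) = k
    · rw [if_pos h, if_pos]
      rw [← h1, h]
    · rw [if_neg h, if_neg]
      intro h2
      apply h
      apply Fin.ext
      have h3 : ((dig m β ((TT β γ)^[j] z) : ℕ) : ℤ) = ((k : ℕ) : ℤ) := by rw [h1, ← h2]
      exact_mod_cast h3
  have hgood' : ∀ z ∈ Ico (0 : ℝ) 1, z ∉ badU → ∀ k : Fin (m + 1), Tendsto (fun n : ℕ =>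
      (cnt k (fun n => dig m β ((TT β γ)^[n] z)) n : ℝ) / n) atTop (𝓝 (P ((k : ℕ) : ℤ))) := by
    intro z hz hzb k
    refine (hgood z hz hzb ((k : ℕ) : ℤ)).congr fun n => ?_
    rw [hcnt z hz, div_eq_inv_mul]
  refine ⟨fun k => P ((k : ℕ) : ℤ), ?_, ?_, ?_⟩
  · intro k
    have h := hgood' z hzI hz1 k
    exact ⟨ge_of_tendsto' h fun n => cnt_div_nonneg _ _ _,
      le_of_tendsto' h fun n => cnt_div_le_one _ _ _⟩
  · intro k
    simp only
    rw [hsym]
    congr 1
    have := k.2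
    rw [Fin.val_rev]
    omega
  · have hsub : {x | x ∈ Ico (aa m β) (aa m β + 1) ∧ x ∉ FF m β fun k => P ((k : ℕ) : ℤ)} ⊆
        (fun x => x - aa m β) ⁻¹' badU := by
      rintro x ⟨hx, hxF⟩
      by_contra hcon
      apply hxF
      have hz : x - aa m β ∈ Ico (0 : ℝ) 1 := ⟨by linarith [hx.1], by linarith [hx.2]⟩
      refine ⟨fun n => dig m β ((TT β γ)^[n] (x - aa m β)), ?_, hgood' _ hz hcon⟩
      intro n
      have h1 := X_central hβ1 hm hm2 hz n
      rw [sub_add_cancel] at h1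
      rw [h1]
      have h2 := TT_iter_mem β γ hz n
      have h3 := aa_pos hβ1 hm
      refine ⟨by linarith [h2.1], ?_⟩
      have h4 : (m : ℝ) / (β - 1) = 2 * aa m β + 1 := by unfold aa; ring
      rw [h4]
      linarith [h2.2]
    refine measure_mono_null hsub ?_
    have h5 : volume ((fun x => x + (-aa m β)) ⁻¹' badU) = 0 := by
      rw [measure_preimage_add_right]; exact hbadU0
    simpa [sub_eq_add_neg] using h5

lemma FF_step {β : ℝ} (hβ : 1 < β) {p : Fin (m + 1) → ℝ} {x : ℝ} {d : Fin (m + 1)}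
    (h : β * x - ((d : ℕ) : ℝ) ∈ FF m β p) : x ∈ FF m β p := by
  obtain ⟨s, hs, hf⟩ := h
  set t : ℕ → Fin (m + 1) := fun n => if n = 0 then d else s (n - 1) with ht
  have hX : ∀ n, X β x t (1 + n) = X β (β * x - ((d : ℕ) : ℝ)) s n := by
    intro n
    rw [X_add]
    have h1 : X β x t 1 = β * x - ((d : ℕ) : ℝ) := by
      rw [X_succ, X_zero]; simp [ht]
    rw [h1]
    congr 1
    funext i
    simp [ht]
  refine ⟨t, ?_, ?_⟩
  · intro n
    rcases Nat.eq_zero_or_pos n with h0 | hpos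
    · rw [h0, X_zero]
      exact mem_II_of_step hβ (hs 0)
    · obtain ⟨r, rfl⟩ := Nat.exists_eq_add_of_le hpos
      rw [hX]; exact hs r
  · intro k
    have h1 : ∀ n, (cnt k t (n + 1) : ℝ) = (if d = k then (1 : ℝ) else 0) + cnt k s n := by
      intro n
      rw [add_comm n 1, cnt_add, cnt_succ]
      have : (fun i => t (1 + i)) = s := by funext i; simp [ht]
      rw [this]
      simp [cnt, ht]
    rw [← tendsto_add_atTop_iff_nat 1]
    have h2 : Tendsto (fun n : ℕ => (if d = k then (1 : ℝ) else 0) * (1 / ((n : ℝ) + 1)) +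
        ((cnt k s n : ℝ) / n) * ((n : ℝ) / ((n : ℝ) + 1))) atTop
        (𝓝 ((if d = k then (1 : ℝ) else 0) * 0 + p k * 1)) := by
      refine (tendsto_one_div_add_atTop_nhds_zero_nat.const_mul _).add ((hf k).mul ?_)
      exact tendsto_natCast_div_add_atTop 1
    rw [mul_zero, zero_add, mul_one] at h2
    refine h2.congr fun n => ?_
    rw [h1]
    push_cast
    have hn : (n : ℝ) + 1 ≠ 0 := by positivity
    rcases Nat.eq_zero_or_pos n with h0 | hpos
    · subst h0
      simp [cnt]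
    · have : (n : ℝ) ≠ 0 := by positivity
      field_simp

lemma FF_of_X {β : ℝ} (hβ : 1 < β) {p : Fin (m + 1) → ℝ} {x : ℝ} {s : ℕ → Fin (m + 1)} {n : ℕ}
    (h : X β x s n ∈ FF m β p) : x ∈ FF m β p := by
  induction n with
  | zero => exact h
  | succ n ih =>
    rw [X_succ] at h
    exact ih (FF_step hβ h)

/-- Steering into the central interval. -/
lemma steer {β : ℝ} (hβ : 1 < β) (hm : β < m + 1) (hm2 : (m : ℝ) ≤ β) {x : ℝ}
    (hx : x ∈ Ioo (0 : ℝ) (m / (β - 1))) :
    ∃ (s : ℕ → Fin (m + 1)) (n : ℕ), X β x s n ∈ Ico (aa m β) (aa m β + 1) := by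
  classical
  set a := aa m β with ha
  have hΛ : (m : ℝ) / (β - 1) = 2 * a + 1 := by rw [ha]; unfold aa; ring
  have hβa : β * a < a + 1 := by
    rw [ha, aa_rel hβ]
    unfold gam
    linarith
  have ha0 : 0 < a := aa_pos hβ hm
  have hβ0 : 0 < β := by linarith
  have key : ∀ y : ℝ, 0 < y → ∃ n, a < β ^ n * y := by
    intro y hy
    have h1 : Tendsto (fun n : ℕ => β ^ n * y) atTop atTop :=
      (tendsto_pow_atTop_atTop_of_one_lt hβ).atTop_mul_const hy
    exact (h1.eventually_gt_atTop a).exists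
  by_cases h1 : x < a
  · have hex := key x hx.1
    set n := Nat.find hex with hn
    have hn1 : a < β ^ n * x := Nat.find_spec hex
    have hn0 : n ≠ 0 := by
      intro h0
      rw [h0, pow_zero, one_mul] at hn1
      linarith
    have hn2 : β ^ (n - 1) * x ≤ a := by
      have := Nat.find_min hex (m := n - 1) (by omega)
      exact not_lt.1 this
    have hX : ∀ n, X β x (fun _ => (0 : Fin (m + 1))) n = β ^ n * x := by
      intro n
      induction n with
      | zero => simp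
      | succ n ih => rw [X_succ, ih]; simp [pow_succ]; ring
    refine ⟨fun _ => 0, n, ?_⟩
    rw [hX]
    refine ⟨hn1.le, ?_⟩
    have h3 : β ^ n * x = β * (β ^ (n - 1) * x) := by
      rw [← mul_assoc, ← pow_succ']
      congr 2
      omega
    rw [h3]
    have h4 := mul_le_mul_of_nonneg_left hn2 hβ0.le
    linarith
  · by_cases h2 : x < a + 1
    · exact ⟨fun _ => 0, 0, not_lt.1 h1, h2⟩
    · push Not at h2
      set y := (m : ℝ) / (β - 1) - x with hy
      have hy0 : 0 < y := by rw [hy]; linarith [hx.2]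
      have hya : y ≤ a := by rw [hy, hΛ]; linarith
      have hex := key y hy0
      set n := Nat.find hex with hn
      have hn1 : a < β ^ n * y := Nat.find_spec hex
      have hn0 : n ≠ 0 := by
        intro h0
        rw [h0, pow_zero, one_mul] at hn1
        linarith
      have hn2 : β ^ (n - 1) * y ≤ a := by
        have := Nat.find_min hex (m := n - 1) (by omega)
        exact not_lt.1 this
      have hX : ∀ n, X β x (fun _ => (⟨m, Nat.lt_succ_self m⟩ : Fin (m + 1))) n =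
          m / (β - 1) - β ^ n * y := by
        intro n
        induction n with
        | zero => rw [X_zero, hy]; ring
        | succ n ih =>
          rw [X_succ, ih]
          have : β - 1 ≠ 0 := by linarith
          simp only [pow_succ]
          field_simp
          ring
      refine ⟨fun _ => ⟨m, Nat.lt_succ_self m⟩, n, ?_⟩
      rw [hX, hΛ]
      have h3 : β ^ n * y = β * (β ^ (n - 1) * y) := by
        rw [← mul_assoc, ← pow_succ']
        congr 2
        omega
      have h4 := mul_le_mul_of_nonneg_left hn2 hβ0.le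
      constructor
      · rw [h3]; linarith
      · linarith

/-- Almost every point has a continuum of balanced expansions. -/
theorem balanced {β : ℝ} (hβ : 2 < β) (hm : β < m + 1) (hm2 : (m : ℝ) ≤ β) (hm1 : 1 ≤ m) :
    ∃ p : Fin (m + 1) → ℝ, (∀ k, p k = p (Fin.rev k)) ∧
      ∀ᵐ x ∂(volume.restrict (II m β)), Cardinal.mk (EE β p p x) = Cardinal.continuum := by
  classical
  have hβ1 : 1 < β := by linarith
  obtain ⟨p, hp, hsym, hnull⟩ := central hβ hm hm2
  refine ⟨p, hsym, ?_⟩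
  apply (equivalence hβ1 hm hm1 hp hp).1
  rw [ae_restrict_iff' (II_closed m β).measurableSet]
  set b0 : Set ℝ := {x | x ∈ Ico (aa m β) (aa m β + 1) ∧ x ∉ FF m β p} with hb0
  have hFE : ∀ x ∈ FF m β p, (EE β p p x).Nonempty := by
    rintro x ⟨s, hs, hf⟩
    exact ⟨s, (hasSum_iff hβ1).2 hs, fun k => ⟨(hf k).limsup_eq, (hf k).liminf_eq⟩⟩
  have hcov : {x | ¬ (x ∈ II m β → (EE β p p x).Nonempty)} ⊆
      {0, (m : ℝ) / (β - 1)} ∪ ⋃ n : ℕ, ⋃ w : Fin n → Fin (m + 1),
        {x | X β x (ext m n w) n ∈ b0} := by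
    intro x hx
    simp only [mem_ofPred_eq, Classical.not_imp] at hx
    obtain ⟨hxI, hxE⟩ := hx
    have hxF : x ∉ FF m β p := fun h => hxE (hFE x h)
    by_cases h0 : x = 0 ∨ x = (m : ℝ) / (β - 1)
    · left; exact h0
    · right
      push Not at h0
      have hxo : x ∈ Ioo (0 : ℝ) (m / (β - 1)) :=
        ⟨lt_of_le_of_ne hxI.1 (Ne.symm h0.1), lt_of_le_of_ne hxI.2 h0.2⟩
      obtain ⟨s, n, hsn⟩ := steer hβ1 hm hm2 hxo
      refine mem_iUnion.2 ⟨n, mem_iUnion.2 ⟨trunc n s, ?_⟩⟩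
      simp only [mem_ofPred_eq, X_ext_trunc]
      exact ⟨hsn, fun h => hxF (FF_of_X hβ1 h)⟩
  refine measure_mono_null hcov (measure_union_null ?_ ?_)
  · exact (Set.toFinite _).measure_zero _
  · refine measure_iUnion_null fun n => measure_iUnion_null fun w => ?_
    rw [volume_X_preimage hβ1, hnull, mul_zero]

end Q92.BX
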