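import Mathlib

/-!
Beta-expansions: orbits, the landing lemma, and points with two expansions.
-/

open Set Filter Topology MeasureTheory
open scoped ENNReal

namespace Q92.BX

variable {m : ℕ}

/-- The orbit of `x` along the digit sequence `s`. -/
noncomputable def X (β x : ℝ) (s : ℕ → Fin (m + 1)) : ℕ → ℝ
  | 0 => x
  | n + 1 => β * X β x s n - ((s n : ℕ) : ℝ)

@[simp] lemma X_zero (β x : ℝ) (s : ℕ → Fin (m + 1)) : X β x s 0 = x := rfl

lemma X_succ (β x : ℝ) (s : ℕ → Fin (m + 1)) (n : ℕ) :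
    X β x s (n + 1) = β * X β x s n - ((s n : ℕ) : ℝ) := rfl

lemma X_add (β x : ℝ) (s : ℕ → Fin (m + 1)) (n r : ℕ) :
    X β x s (n + r) = X β (X β x s n) (fun i => s (n + i)) r := by
  induction r with
  | zero => rfl
  | succ r ih => rw [← add_assoc, X_succ, ih, X_succ]

lemma X_congr (β x : ℝ) {s t : ℕ → Fin (m + 1)} {n : ℕ} (h : ∀ i < n, s i = t i) :
    X β x s n = X β x t n := by
  induction n with
  | zero => rfl
  | succ n ih => rw [X_succ, X_succ, ih fun i hi => h i (by omega), h n (by omega)]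

lemma X_affine (β x : ℝ) (s : ℕ → Fin (m + 1)) (n : ℕ) :
    X β x s n = β ^ n * x + X β 0 s n := by
  induction n with
  | zero => simp
  | succ n ih => rw [X_succ, X_succ, ih]; ring

/-- The interval of points having an expansion. -/
def II (m : ℕ) (β : ℝ) : Set ℝ := Icc 0 (m / (β - 1))

/-- The left endpoint of the interval of points with a given word. -/
noncomputable def lft (β : ℝ) (s : ℕ → Fin (m + 1)) (n : ℕ) : ℝ := -X β 0 s n / β ^ n

lemma X_eq_lft {β : ℝ} (hβ : 1 < β) (x : ℝ) (s : ℕ → Fin (m + 1)) (n : ℕ) :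
    X β x s n = β ^ n * (x - lft β s n) := by
  rw [X_affine, lft]
  have : β ^ n ≠ 0 := by positivity
  field_simp
  ring

lemma mem_II_iff {β : ℝ} (hβ : 1 < β) (x : ℝ) (s : ℕ → Fin (m + 1)) (n : ℕ) :
    X β x s n ∈ II m β ↔ lft β s n ≤ x ∧ x ≤ lft β s n + (m / (β - 1)) / β ^ n := by
  have hp : 0 < β ^ n := by positivity
  rw [X_eq_lft hβ, II, mem_Icc]
  constructor
  · rintro ⟨h1, h2⟩
    constructor
    · have := nonneg_of_mul_nonneg_right h1 hp
      linarith
    · have : x - lft β s n ≤ (m / (β - 1)) / β ^ n := by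
        rw [le_div_iff₀ hp]; linarith
      linarith
  · rintro ⟨h1, h2⟩
    constructor
    · exact mul_nonneg hp.le (by linarith)
    · have : x - lft β s n ≤ (m / (β - 1)) / β ^ n := by linarith
      rw [le_div_iff₀ hp] at this
      linarith

lemma mem_II_of_step {β : ℝ} (hβ : 1 < β) {y : ℝ} {a : Fin (m + 1)}
    (h : β * y - ((a : ℕ) : ℝ) ∈ II m β) : y ∈ II m β := by
  have ha : ((a : ℕ) : ℝ) ≤ m := by exact_mod_cast Nat.lt_succ_iff.1 a.2
  have ha0 : (0 : ℝ) ≤ ((a : ℕ) : ℝ) := Nat.cast_nonneg _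
  obtain ⟨h1, h2⟩ := h
  have hβ1 : 0 < β - 1 := by linarith
  constructor
  · have : 0 ≤ β * y := by linarith
    exact nonneg_of_mul_nonneg_right this (by linarith)
  · rw [le_div_iff₀ hβ1] at h2 ⊢
    nlinarith

lemma mem_II_of_le {β : ℝ} (hβ : 1 < β) {x : ℝ} {s : ℕ → Fin (m + 1)} {n k : ℕ}
    (h : X β x s (n + k) ∈ II m β) : X β x s n ∈ II m β := by
  induction k with
  | zero => exact h
  | succ k ih =>
    apply ih
    rw [← add_assoc, X_succ] at h
    exact mem_II_of_step hβ h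

lemma mem_II_of_le' {β : ℝ} (hβ : 1 < β) {x : ℝ} {s : ℕ → Fin (m + 1)} {n k : ℕ} (hnk : n ≤ k)
    (h : X β x s k ∈ II m β) : X β x s n ∈ II m β := by
  obtain ⟨r, rfl⟩ := Nat.exists_eq_add_of_le hnk
  exact mem_II_of_le hβ h

lemma exists_digit {β : ℝ} (hβ : 1 < β) (hm : β ≤ m + 1) {y : ℝ} (hy : y ∈ II m β) :
    ∃ a : Fin (m + 1), β * y - ((a : ℕ) : ℝ) ∈ II m β := by
  obtain ⟨h1, h2⟩ := hy
  have hβ1 : 0 < β - 1 := by linarith
  have hL : 1 ≤ (m : ℝ) / (β - 1) := by rw [le_div_iff₀ hβ1]; linarith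
  have hby : 0 ≤ β * y := mul_nonneg (by linarith) h1
  rw [le_div_iff₀ hβ1] at h2
  by_cases h : ⌊β * y⌋₊ ≤ m
  · refine ⟨⟨⌊β * y⌋₊, by omega⟩, ?_, ?_⟩
    · have := Nat.floor_le hby
      simp only
      linarith
    · have := Nat.lt_floor_add_one (β * y)
      simp only
      linarith
  · refine ⟨⟨m, by omega⟩, ?_, ?_⟩
    · have h3 : (m : ℝ) < ⌊β * y⌋₊ := by exact_mod_cast not_le.1 h
      have := Nat.floor_le hby
      simp only
      linarith
    · simp only
      rw [le_div_iff₀ hβ1]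
      nlinarith

lemma exists_seq {β : ℝ} (hβ : 1 < β) (hm : β ≤ m + 1) {x : ℝ} (hx : x ∈ II m β) :
    ∃ s : ℕ → Fin (m + 1), ∀ n, X β x s n ∈ II m β := by
  classical
  choose! d hd using fun y (hy : y ∈ II m β) => exists_digit hβ hm hy
  let y : ℕ → ℝ := fun n => Nat.rec x (fun _ z => β * z - ((d z : ℕ) : ℝ)) n
  have hy : ∀ n, y n ∈ II m β := by
    intro n
    induction n with
    | zero => exact hx
    | succ n ih => exact hd _ ih
  have hX : ∀ n, X β x (fun i => d (y i)) n = y n := by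
    intro n
    induction n with
    | zero => rfl
    | succ n ih => rw [X_succ, ih]
  exact ⟨fun i => d (y i), fun n => by rw [hX]; exact hy n⟩

lemma II_closed (m : ℕ) (β : ℝ) : IsClosed (II m β) := isClosed_Icc

lemma X_continuous (β : ℝ) (s : ℕ → Fin (m + 1)) (n : ℕ) : Continuous (fun x => X β x s n) := by
  have : (fun x => X β x s n) = fun x => β ^ n * x + X β 0 s n := by
    funext x; exact X_affine β x s n
  rw [this]
  fun_prop

/-- Extension of a finite word. -/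
def ext (m : ℕ) (n : ℕ) (w : Fin n → Fin (m + 1)) : ℕ → Fin (m + 1) :=
  fun i => if h : i < n then w ⟨i, h⟩ else 0

/-- Truncation of a sequence. -/
def trunc (n : ℕ) (s : ℕ → Fin (m + 1)) : Fin n → Fin (m + 1) := fun i => s i

lemma ext_trunc (n : ℕ) (s : ℕ → Fin (m + 1)) {i : ℕ} (hi : i < n) :
    ext m n (trunc n s) i = s i := by
  simp [ext, trunc, hi]

lemma X_ext_trunc (β x : ℝ) (s : ℕ → Fin (m + 1)) (n : ℕ) :
    X β x (ext m n (trunc n s)) n = X β x s n :=
  X_congr β x fun _ hi => ext_trunc n s hi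

lemma volume_X_preimage {β : ℝ} (hβ : 1 < β) (s : ℕ → Fin (m + 1)) (n : ℕ) (C : Set ℝ) :
    volume {x | X β x s n ∈ C} = ENNReal.ofReal ((β ^ n)⁻¹) * volume C := by
  have hp : 0 < β ^ n := by positivity
  have h1 : {x | X β x s n ∈ C} = (fun x => β ^ n * x) ⁻¹' ((fun x => x + X β 0 s n) ⁻¹' C) := by
    ext x
    simp only [mem_ofPred_eq, mem_preimage]
    rw [X_affine]
  rw [h1, Real.volume_preimage_mul_left hp.ne', measure_preimage_add_right,
    abs_of_pos (by positivity)]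

/-- Left endpoints of a family of words form a finite set. -/
lemma finite_lft (β : ℝ) (S : Set (ℕ → Fin (m + 1))) (n : ℕ) :
    ((fun s => lft β s n) '' S).Finite := by
  refine (Set.finite_range (fun w : Fin n → Fin (m + 1) => lft β (ext m n w) n)).subset ?_
  rintro _ ⟨s, -, rfl⟩
  refine ⟨trunc n s, ?_⟩
  simp only [lft, X_ext_trunc]

/-- The landing lemma. -/
lemma landing {β : ℝ} (hβ : 1 < β) (hm : 1 ≤ m) (S : Set (ℕ → Fin (m + 1))) (K : ℕ)
    (B : Set ℝ) :
    volume ({x | ∃ s ∈ S, X β x s K ∈ II m β} \ {x | ∃ s ∈ S, X β x s K ∈ B}) ≤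
      4 * volume (II m β \ B) := by
  classical
  set Λ : ℝ := m / (β - 1) with hΛ
  have hβ1 : 0 < β - 1 := by linarith
  have hm' : (1 : ℝ) ≤ m := by exact_mod_cast hm
  have hΛ0 : 0 < Λ := by positivity
  have hp : 0 < β ^ K := by positivity
  set h : ℝ := Λ / β ^ K with hh
  have hh0 : 0 < h := by positivity
  set U : Set ℝ := {x | ∃ s ∈ S, X β x s K ∈ II m β} with hU
  set U' : Set ℝ := {x | ∃ s ∈ S, X β x s K ∈ B} with hU'
  set b := volume (II m β \ B) with hb
  set c : ℝ≥0∞ := ENNReal.ofReal ((β ^ K)⁻¹) with hc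
  have hUI : U ⊆ II m β := by
    rintro x ⟨s, -, hs⟩
    exact mem_II_of_le' hβ (Nat.zero_le K) hs
  -- one cell
  have cell : ∀ y : ℝ, ∃ D : Set ℝ, volume D ≤ 2 * (c * b) ∧
      (U \ U') ∩ Icc y (y + h) ⊆ D := by
    intro y
    set L : Set (ℕ → Fin (m + 1)) := {s ∈ S | lft β s K ≤ y ∧ y ≤ lft β s K + h} with hL
    set R : Set (ℕ → Fin (m + 1)) := {s ∈ S | lft β s K ≤ y + h ∧ y + h ≤ lft β s K + h} with hR
    have hDL : ∃ D : Set ℝ, volume D ≤ c * b ∧ ∀ x ∈ (U \ U') ∩ Icc y (y + h),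
        (∃ s ∈ L, X β x s K ∈ II m β) → x ∈ D := by
      rcases L.eq_empty_or_nonempty with he | hne
      · refine ⟨∅, by simp, ?_⟩
        rintro x - ⟨s, hs, -⟩
        rw [he] at hs
        exact absurd hs (notMem_empty _)
      · obtain ⟨a, ⟨s0, hs0, rfl⟩, hmax⟩ :=
          Set.exists_max_image _ id (finite_lft β L K) (hne.image _)
        refine ⟨{x | X β x s0 K ∈ II m β \ B}, ?_, ?_⟩
        · rw [volume_X_preimage hβ]
        · rintro x ⟨⟨-, hxU'⟩, hx1, hx2⟩ ⟨s, hsL, hs⟩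
          rw [mem_II_iff hβ] at hs
          have hle : lft β s K ≤ lft β s0 K := hmax _ ⟨s, hsL, rfl⟩
          refine ⟨(mem_II_iff hβ _ _ _).2 ⟨?_, ?_⟩, fun hB => hxU' ⟨s0, hs0.1, hB⟩⟩
          · exact hs0.2.1.trans hx1
          · exact hs.2.trans (by linarith)
    have hDR : ∃ D : Set ℝ, volume D ≤ c * b ∧ ∀ x ∈ (U \ U') ∩ Icc y (y + h),
        (∃ s ∈ R, X β x s K ∈ II m β) → x ∈ D := by
      rcases R.eq_empty_or_nonempty with he | hne
      · refine ⟨∅, by simp, ?_⟩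
        rintro x - ⟨s, hs, -⟩
        rw [he] at hs
        exact absurd hs (notMem_empty _)
      · obtain ⟨a, ⟨s0, hs0, rfl⟩, hmin⟩ :=
          Set.exists_min_image _ id (finite_lft β R K) (hne.image _)
        refine ⟨{x | X β x s0 K ∈ II m β \ B}, ?_, ?_⟩
        · rw [volume_X_preimage hβ]
        · rintro x ⟨⟨-, hxU'⟩, hx1, hx2⟩ ⟨s, hsR, hs⟩
          rw [mem_II_iff hβ] at hs
          have hle : lft β s0 K ≤ lft β s K := hmin _ ⟨s, hsR, rfl⟩
          refine ⟨(mem_II_iff hβ _ _ _).2 ⟨?_, ?_⟩, fun hB => hxU' ⟨s0, hs0.1, hB⟩⟩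
          · exact hle.trans hs.1
          · exact hx2.trans hs0.2.2
    obtain ⟨D1, hD1, hD1'⟩ := hDL
    obtain ⟨D2, hD2, hD2'⟩ := hDR
    refine ⟨D1 ∪ D2, ?_, ?_⟩
    · calc volume (D1 ∪ D2) ≤ volume D1 + volume D2 := measure_union_le _ _
        _ ≤ c * b + c * b := add_le_add hD1 hD2
        _ = 2 * (c * b) := by ring
    · intro x hx
      obtain ⟨⟨⟨s, hsS, hs⟩, hxU'⟩, hx1, hx2⟩ := hx
      have hs' := (mem_II_iff hβ _ _ _).1 hs
      rw [← hΛ, ← hh] at hs'
      rcases le_or_gt (lft β s K) y with hle | hgt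
      · left
        exact hD1' x ⟨⟨⟨s, hsS, hs⟩, hxU'⟩, hx1, hx2⟩
          ⟨s, ⟨hsS, hle, hx1.trans hs'.2⟩, hs⟩
      · right
        exact hD2' x ⟨⟨⟨s, hsS, hs⟩, hxU'⟩, hx1, hx2⟩
          ⟨s, ⟨hsS, hs'.1.trans hx2, by linarith⟩, hs⟩
  choose D hD hD' using cell
  set M : ℕ := ⌈β ^ K⌉₊ with hM
  have hMle : (M : ℝ) ≤ 2 * β ^ K := by
    have h1 := Nat.ceil_lt_add_one hp.le
    have h2 : 1 ≤ β ^ K := one_le_pow₀ hβ.le
    linarith
  have hcov : U \ U' ⊆ ⋃ i ∈ Finset.range M, D (i * h) := by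
    intro x hx
    obtain ⟨hx0, hx1⟩ := hUI hx.1
    -- the index of the cell
    by_cases hxL : x = Λ
    · have hM1 : 1 ≤ M := by
        rw [hM]; exact Nat.one_le_ceil_iff.2 hp
      rw [mem_iUnion₂]
      refine ⟨M - 1, Finset.mem_range.2 (by omega), ?_⟩
      apply hD'
      refine ⟨hx, ?_, ?_⟩
      · have h1 : ((M - 1 : ℕ) : ℝ) = M - 1 := by push_cast [hM1]; ring
        have h2 : (M : ℝ) < β ^ K + 1 := Nat.ceil_lt_add_one hp.le
        rw [h1, hxL]
        have h3 : ((M : ℝ) - 1) * h ≤ β ^ K * h := mul_le_mul_of_nonneg_right (by linarith) hh0.le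
        have h4 : β ^ K * h = Λ := by rw [hh]; field_simp
        linarith
      · have h1 : ((M - 1 : ℕ) : ℝ) = M - 1 := by push_cast [hM1]; ring
        have h2 : β ^ K ≤ M := Nat.le_ceil _
        rw [h1, hxL]
        have h3 : β ^ K * h ≤ M * h := mul_le_mul_of_nonneg_right h2 hh0.le
        have h4 : β ^ K * h = Λ := by rw [hh]; field_simp
        linarith
    · have hxlt : x < Λ := lt_of_le_of_ne hx1 hxL
      have hq0 : 0 ≤ x / h := by positivity
      rw [mem_iUnion₂]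
      refine ⟨⌊x / h⌋₊, Finset.mem_range.2 ?_, ?_⟩
      · rw [Nat.floor_lt hq0]
        have h1 : x / h < β ^ K := by
          rw [div_lt_iff₀ hh0]
          have h4 : β ^ K * h = Λ := by rw [hh]; field_simp
          linarith
        exact h1.trans_le (Nat.le_ceil _)
      · apply hD'
        refine ⟨hx, ?_, ?_⟩
        · have := Nat.floor_le hq0
          rw [le_div_iff₀ hh0] at this
          exact this
        · have := (Nat.lt_floor_add_one (x / h)).le
          rw [div_le_iff₀ hh0] at this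
          linarith
  calc volume (U \ U') ≤ volume (⋃ i ∈ Finset.range M, D (i * h)) := measure_mono hcov
    _ ≤ ∑ i ∈ Finset.range M, volume (D (i * h)) := measure_biUnion_finset_le _ _
    _ ≤ ∑ _i ∈ Finset.range M, 2 * (c * b) := Finset.sum_le_sum fun i _ => hD _
    _ = (M : ℝ≥0∞) * (2 * (c * b)) := by rw [Finset.sum_const, Finset.card_range, nsmul_eq_mul]
    _ ≤ ENNReal.ofReal (2 * β ^ K) * (2 * (c * b)) := by
        gcongr
        rw [← ENNReal.ofReal_natCast]
        exact ENNReal.ofReal_le_ofReal hMle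
    _ = (ENNReal.ofReal (2 * β ^ K) * c) * (2 * b) := by ring
    _ = 2 * (2 * b) := by
        rw [hc, ← ENNReal.ofReal_mul (by positivity)]
        have : 2 * β ^ K * (β ^ K)⁻¹ = 2 := by field_simp
        rw [this]
        norm_num
    _ = 4 * b := by ring

end Q92.BX
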