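import Pool.Agent.Q92.BX.Basic

/-!
Almost every point has two expansions.
-/

open Set Filter Topology MeasureTheory
open scoped ENNReal

namespace Q92.BX

variable {m : ℕ}

/-- Points with two different admissible words of length `l`. -/
def RR (m : ℕ) (β : ℝ) (l : ℕ) : Set ℝ :=
  {z | ∃ s t : ℕ → Fin (m + 1), (∃ i < l, s i ≠ t i) ∧ X β z s l ∈ II m β ∧ X β z t l ∈ II m β}

lemma RR_closed (β : ℝ) (l : ℕ) : IsClosed (RR m β l) := by
  have : RR m β l = ⋃ p : {p : (Fin l → Fin (m + 1)) × (Fin l → Fin (m + 1)) // p.1 ≠ p.2},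
      {z | X β z (ext m l p.1.1) l ∈ II m β ∧ X β z (ext m l p.1.2) l ∈ II m β} := by
    ext z
    rw [mem_iUnion]
    constructor
    · rintro ⟨s, t, ⟨i, hi, hne⟩, hs, ht⟩
      refine ⟨⟨(trunc l s, trunc l t), fun h => hne ?_⟩, ?_, ?_⟩
      · have := congrFun h ⟨i, hi⟩
        exact this
      · rw [X_ext_trunc]; exact hs
      · rw [X_ext_trunc]; exact ht
    · rintro ⟨⟨⟨w, w'⟩, hne⟩, h1, h2⟩
      refine ⟨ext m l w, ext m l w', ?_, h1, h2⟩
      by_contra hcon
      push Not at hcon
      apply hne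
      funext i
      have := hcon i i.2
      simpa [ext] using this
  rw [this]
  refine isClosed_iUnion_of_finite fun p => ?_
  exact ((II_closed m β).preimage (X_continuous β _ l)).inter
    ((II_closed m β).preimage (X_continuous β _ l))

lemma RR_step {β : ℝ} {z : ℝ} {n l : ℕ} {s : ℕ → Fin (m + 1)}
    (h : X β z s n ∈ RR m β l) : z ∈ RR m β (n + l) := by
  obtain ⟨u, v, ⟨i, hi, hne⟩, hu, hv⟩ := h
  have key : ∀ w : ℕ → Fin (m + 1), X β z (fun k => if k < n then s k else w (k - n)) (n + l) =
      X β (X β z s n) w l := by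
    intro w
    rw [X_add]
    have h1 : X β z (fun k => if k < n then s k else w (k - n)) n = X β z s n :=
      X_congr β z fun k hk => by simp [hk]
    rw [h1]
    congr 1
    funext k
    simp
  refine ⟨fun k => if k < n then s k else u (k - n), fun k => if k < n then s k else v (k - n),
    ⟨n + i, by omega, ?_⟩, ?_, ?_⟩
  · simp [hne]
  · rw [key]; exact hu
  · rw [key]; exact hv

lemma RR_mono {β : ℝ} (hβ : 1 < β) (hm : β ≤ m + 1) {l l' : ℕ} (hl : l ≤ l') :
    RR m β l ⊆ RR m β l' := by
  rintro z ⟨s, t, ⟨i, hi, hne⟩, hs, ht⟩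
  obtain ⟨r, rfl⟩ := Nat.exists_eq_add_of_le hl
  obtain ⟨u, hu⟩ := exists_seq hβ hm hs
  obtain ⟨v, hv⟩ := exists_seq hβ hm ht
  have key : ∀ s w : ℕ → Fin (m + 1),
      X β z (fun k => if k < l then s k else w (k - l)) (l + r) = X β (X β z s l) w r := by
    intro s w
    rw [X_add]
    have h1 : X β z (fun k => if k < l then s k else w (k - l)) l = X β z s l :=
      X_congr β z fun k hk => by simp [hk]
    rw [h1]
    congr 1
    funext k
    simp
  refine ⟨fun k => if k < l then s k else u (k - l), fun k => if k < l then t k else v (k - l),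
    ⟨i, by omega, ?_⟩, ?_, ?_⟩
  · simp only [hi, if_true]; exact hne
  · rw [key]; exact hu r
  · rw [key]; exact hv r

/-- Almost every point has two expansions. -/
lemma unique_null {β : ℝ} (hβ : 1 < β) (hm : β < m + 1) (hm1 : 1 ≤ m) :
    volume (⋂ l, (II m β \ RR m β l)) = 0 := by
  classical
  set Λ : ℝ := m / (β - 1) with hΛ
  have hβ1 : 0 < β - 1 := by linarith
  have hm' : (1 : ℝ) ≤ m := by exact_mod_cast hm1
  have hΛ1 : 1 < Λ := by rw [hΛ, lt_div_iff₀ hβ1]; linarith
  set U : Set ℝ := ⋂ l, (II m β \ RR m β l) with hU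
  set S : Set ℝ := Icc (1 / β) (Λ / β) with hS
  -- the switch region consists of points with two words of length one
  have hSR : S ⊆ RR m β 1 := by
    rintro z ⟨h1, h2⟩
    have hβ0 : 0 < β := by linarith
    rw [div_le_iff₀ hβ0] at h1
    rw [le_div_iff₀ hβ0] at h2
    refine ⟨fun _ => ⟨0, by omega⟩, fun _ => ⟨1, by omega⟩, ⟨0, by omega, ?_⟩, ?_, ?_⟩
    · simp [Fin.ext_iff]
    · rw [X_succ, X_zero]
      constructor
      · simp only [Nat.cast_zero]; linarith
      · simp only [Nat.cast_zero]; linarith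
    · rw [X_succ, X_zero]
      constructor
      · simp only [Nat.cast_one]; linarith
      · simp only [Nat.cast_one]
        rw [← hΛ]
        linarith
  have hSI : S ⊆ II m β := by
    rintro z ⟨h1, h2⟩
    have hβ0 : 0 < β := by linarith
    refine ⟨le_trans (by positivity) h1, h2.trans ?_⟩
    exact div_le_self (by linarith) hβ.le
  have hUR : ∀ z ∈ U, ∀ l, z ∉ RR m β l := fun z hz l => (mem_iInter.1 hz l).2
  have hUI : ∀ z ∈ U, z ∈ II m β := fun z hz => (mem_iInter.1 hz 0).1
  have hUstep : ∀ z ∈ U, ∀ (s : ℕ → Fin (m + 1)) n, X β z s n ∈ II m β → X β z s n ∈ U := by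
    intro z hz s n hn
    refine mem_iInter.2 fun l => ⟨hn, fun h => hUR z hz (n + l) (RR_step h)⟩
  have hUS : U ⊆ II m β \ S := fun z hz => ⟨hUI z hz, fun h => hUR z hz 1 (hSR h)⟩
  set σ : ℝ := Λ / β - 1 / β with hσ
  have hσ0 : 0 < σ := by
    rw [hσ, ← sub_div]
    exact div_pos (by linarith) (by linarith)
  have hvolS : volume (II m β \ S) = ENNReal.ofReal (Λ - σ) := by
    have hne : volume S ≠ ⊤ := by rw [hS, Real.volume_Icc]; exact ENNReal.ofReal_ne_top
    rw [measure_sdiff hSI measurableSet_Icc.nullMeasurableSet hne, II, hS, Real.volume_Icc,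
      Real.volume_Icc, ← ENNReal.ofReal_sub _ hσ0.le, sub_zero]
  have hσΛ : σ ≤ Λ := by
    have h1 : Λ / β ≤ Λ := div_le_self (by linarith) hβ.le
    have h2 : 0 < 1 / β := by positivity
    linarith
  -- density
  have hdens := Besicovitch.ae_tendsto_measure_inter_div volume U
  have hfalse : ∀ z ∈ U, ¬ Tendsto (fun r => volume (U ∩ Metric.closedBall z r) /
      volume (Metric.closedBall z r)) (𝓝[>] 0) (𝓝 1) := by
    intro z hz ht
    obtain ⟨s, hs⟩ := exists_seq hβ hm.le (hUI z hz)
    have hr : Tendsto (fun n : ℕ => Λ / β ^ n) atTop (𝓝[>] 0) := by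
      rw [tendsto_nhdsWithin_iff]
      constructor
      · have h1 : Tendsto (fun n : ℕ => Λ * (β⁻¹) ^ n) atTop (𝓝 (Λ * 0)) :=
          (tendsto_pow_atTop_nhds_zero_of_lt_one (by positivity)
            (inv_lt_one_of_one_lt₀ hβ)).const_mul Λ
        rw [mul_zero] at h1
        refine h1.congr fun n => ?_
        rw [inv_pow]; rfl
      · exact Eventually.of_forall fun n => by
          show 0 < Λ / β ^ n
          positivity
    have ht2 := ht.comp hr
    have hbound : ∀ n : ℕ, volume (U ∩ Metric.closedBall z (Λ / β ^ n)) /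
        volume (Metric.closedBall z (Λ / β ^ n)) ≤ ENNReal.ofReal (1 - σ / (2 * Λ)) := by
      intro n
      set r := Λ / β ^ n with hrdef
      have hp : 0 < β ^ n := by positivity
      have hr0 : 0 < r := by positivity
      set J : Set ℝ := Icc (lft β s n) (lft β s n + r) with hJ
      have hzJ : z ∈ J := by
        have := (mem_II_iff hβ z s n).1 (hs n)
        exact this
      have hJball : J ⊆ Metric.closedBall z r := by
        rintro y ⟨h1, h2⟩
        rw [Metric.mem_closedBall, Real.dist_eq, abs_le]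
        constructor <;> linarith [hzJ.1, hzJ.2]
      have h1 : volume (U ∩ Metric.closedBall z r) ≤
          volume (Metric.closedBall z r \ J) + volume {x | X β x s n ∈ II m β \ S} := by
        refine le_trans (measure_mono ?_) (measure_union_le _ _)
        rintro y ⟨hyU, hyb⟩
        by_cases hyJ : y ∈ J
        · right
          have hyI : X β y s n ∈ II m β := (mem_II_iff hβ y s n).2 hyJ
          exact hUS (hUstep y hyU s n hyI)
        · left; exact ⟨hyb, hyJ⟩
      have h2 : volume (Metric.closedBall z r \ J) = ENNReal.ofReal r := by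
        have hne : volume J ≠ ⊤ := by rw [hJ, Real.volume_Icc]; exact ENNReal.ofReal_ne_top
        rw [measure_sdiff hJball measurableSet_Icc.nullMeasurableSet hne,
          Real.volume_closedBall, hJ, Real.volume_Icc, ← ENNReal.ofReal_sub _ (by linarith)]
        congr 1; ring
      have h3 : volume {x | X β x s n ∈ II m β \ S} = ENNReal.ofReal ((β ^ n)⁻¹ * (Λ - σ)) := by
        rw [volume_X_preimage hβ, hvolS, ← ENNReal.ofReal_mul (by positivity)]
      rw [Real.volume_closedBall]
      refine ENNReal.div_le_of_le_mul ?_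
      rw [← ENNReal.ofReal_mul (by
        have : σ / (2 * Λ) ≤ 1 := by rw [div_le_one (by positivity)]; linarith
        linarith)]
      refine h1.trans ?_
      rw [h2, h3, ← ENNReal.ofReal_add hr0.le (mul_nonneg (by positivity) (by linarith))]
      apply ENNReal.ofReal_le_ofReal
      have e : (1 - σ / (2 * Λ)) * (2 * r) = r + (β ^ n)⁻¹ * (Λ - σ) := by
        rw [hrdef]
        field_simp
        ring
      rw [e]
    have hle := le_of_tendsto' ht2 (fun n => hbound n)
    have hlt : ENNReal.ofReal (1 - σ / (2 * Λ)) < 1 := by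
      rw [← ENNReal.ofReal_one]
      refine (ENNReal.ofReal_lt_ofReal_iff one_pos).2 ?_
      have : 0 < σ / (2 * Λ) := by positivity
      linarith
    exact absurd hle (not_le.2 hlt)
  have hmeas : MeasurableSet U := by
    refine MeasurableSet.iInter fun l => ?_
    exact (II_closed m β).measurableSet.diff (RR_closed β l).measurableSet
  rw [ae_restrict_iff' hmeas] at hdens
  have : volume {z | ¬ (z ∈ U → Tendsto (fun r => volume (U ∩ Metric.closedBall z r) /
      volume (Metric.closedBall z r)) (𝓝[>] 0) (𝓝 1))} = 0 := hdens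
  refine measure_mono_null ?_ this
  intro z hz
  simp only [mem_ofPred_eq, not_forall]
  exact ⟨hz, hfalse z hz⟩

lemma RR_full {β : ℝ} (hβ : 1 < β) (hm : β < m + 1) (hm1 : 1 ≤ m) {τ : ℝ≥0∞} (hτ : τ ≠ 0) :
    ∃ l, volume (II m β \ RR m β l) ≤ τ := by
  have h1 : Tendsto (fun l => volume (II m β \ RR m β l)) atTop
      (𝓝 (volume (⋂ l, (II m β \ RR m β l)))) := by
    refine tendsto_measure_iInter_atTop ?_ ?_ ?_
    · intro l
      exact ((II_closed m β).measurableSet.diff (RR_closed β l).measurableSet).nullMeasurableSet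
    · intro l l' hl
      exact sdiff_subset_sdiff_right (RR_mono hβ hm.le hl)
    · refine ⟨0, ?_⟩
      refine ((measure_mono sdiff_subset).trans_lt ?_).ne
      rw [II, Real.volume_Icc]
      exact ENNReal.ofReal_lt_top
  rw [unique_null hβ hm hm1] at h1
  have := h1.eventually_lt_const (pos_iff_ne_zero.2 hτ)
  obtain ⟨l, hl⟩ := this.exists
  exact ⟨l, hl.le⟩

end Q92.BX
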