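import Pool.Agent.Q92.BX.Branch

/-!
The engine: concatenating good words with branching words.
-/

open Set Filter Topology MeasureTheory
open scoped ENNReal

namespace Q92.BX

variable {m : ℕ}

/-- Concatenation of blocks. -/
lemma exists_concat {α : Type*} (len : ℕ → ℕ) (hlen : ∀ j, 1 ≤ len j) (W : ℕ → ℕ → α)
    (n : ℕ → ℕ) (_hn0 : n 0 = 0) (hn : ∀ j, n (j + 1) = n j + len j) :
    ∃ ε : ℕ → α, ∀ j, ∀ i < len j, ε (n j + i) = W j i := by
  classical
  have hmono : StrictMono n := strictMono_nat_of_lt_succ fun j => by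
    have := hlen j; rw [hn]; omega
  have hex : ∀ i, ∃ j, i < n (j + 1) := fun i => ⟨i, by
    have := hmono.id_le (i + 1)
    simp only [id] at this
    omega⟩
  refine ⟨fun i => W (Nat.find (hex i)) (i - n (Nat.find (hex i))), ?_⟩
  intro j i hi
  have hfind : Nat.find (hex (n j + i)) = j := by
    rw [Nat.find_eq_iff]
    refine ⟨by rw [hn]; omega, ?_⟩
    intro k hk
    have : n (k + 1) ≤ n j := hmono.monotone (by omega)
    omega
  simp only [hfind]
  congr 1
  omega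

/-- The good sets of the engine. -/
def G (m : ℕ) (β : ℝ) (K ℓ : ℕ → ℕ) (V : ∀ j, Set (Fin (K j) → Fin (m + 1))) :
    ℕ → ℕ → Set ℝ
  | 0, _ => II m β
  | t + 1, j => {z | ∃ (v : Fin (K j) → Fin (m + 1)) (u u' : Fin (ℓ j) → Fin (m + 1)),
      v ∈ V j ∧ u ≠ u' ∧
      X β (X β z (ext m (K j) v) (K j)) (ext m (ℓ j) u) (ℓ j) ∈ G m β K ℓ V t (j + 1) ∧
      X β (X β z (ext m (K j) v) (K j)) (ext m (ℓ j) u') (ℓ j) ∈ G m β K ℓ V t (j + 1)}

lemma G_sub {β : ℝ} (hβ : 1 < β) {K ℓ : ℕ → ℕ} {V : ∀ j, Set (Fin (K j) → Fin (m + 1))}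
    (t j : ℕ) : G m β K ℓ V t j ⊆ II m β := by
  induction t generalizing j with
  | zero => exact subset_rfl
  | succ t ih =>
    rintro z ⟨v, u, u', hv, huu, h1, h2⟩
    have h3 := ih (j + 1) h1
    have h4 := mem_II_of_le' hβ (Nat.zero_le _) h3
    rw [X_zero] at h4
    exact mem_II_of_le' hβ (Nat.zero_le _) h4

lemma G_anti {β : ℝ} (hβ : 1 < β) {K ℓ : ℕ → ℕ} {V : ∀ j, Set (Fin (K j) → Fin (m + 1))}
    (t j : ℕ) : G m β K ℓ V (t + 1) j ⊆ G m β K ℓ V t j := by
  induction t generalizing j with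
  | zero => exact G_sub hβ _ _
  | succ t ih =>
    rintro z ⟨v, u, u', hv, huu, h1, h2⟩
    exact ⟨v, u, u', hv, huu, ih _ h1, ih _ h2⟩

lemma G_antitone {β : ℝ} (hβ : 1 < β) {K ℓ : ℕ → ℕ} {V : ∀ j, Set (Fin (K j) → Fin (m + 1))}
    (j : ℕ) : Antitone fun t => G m β K ℓ V t j :=
  antitone_nat_of_succ_le fun t => G_anti hβ t j

/-- Measure estimate. -/
lemma G_measure {β : ℝ} (hβ : 1 < β) (hm1 : 1 ≤ m)
    {K ℓ : ℕ → ℕ} {V : ∀ j, Set (Fin (K j) → Fin (m + 1))} {δ : ℕ → ℝ≥0∞}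
    (hV : ∀ j, volume (II m β \ {x | ∃ v ∈ V j, X β x (ext m (K j) v) (K j) ∈ II m β}) ≤ δ j / 2)
    (hR : ∀ j, volume (II m β \ RR m β (ℓ j)) ≤ δ j / 16)
    (hδ : ∀ j, ((m + 1 : ℕ) : ℝ≥0∞) ^ (ℓ j) * δ (j + 1) ≤ δ j / 16) (t j : ℕ) :
    volume (II m β \ G m β K ℓ V t j) ≤ δ j := by
  classical
  induction t generalizing j with
  | zero => simp [G]
  | succ t ih =>
    set B : Set ℝ := {w | ∃ (u u' : Fin (ℓ j) → Fin (m + 1)), u ≠ u' ∧
      X β w (ext m (ℓ j) u) (ℓ j) ∈ G m β K ℓ V t (j + 1) ∧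
      X β w (ext m (ℓ j) u') (ℓ j) ∈ G m β K ℓ V t (j + 1)} with hB
    have hIB : volume (II m β \ B) ≤ δ j / 8 := by
      have hsub : II m β \ B ⊆ (II m β \ RR m β (ℓ j)) ∪
          ⋃ u : Fin (ℓ j) → Fin (m + 1),
            {w | X β w (ext m (ℓ j) u) (ℓ j) ∈ II m β \ G m β K ℓ V t (j + 1)} := by
        rintro w ⟨hw, hwB⟩
        by_cases hR' : w ∈ RR m β (ℓ j)
        · right
          obtain ⟨s, s', ⟨i, hi, hne⟩, h1, h2⟩ := hR'
          rw [mem_iUnion]
          by_contra hcon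
          push Not at hcon
          apply hwB
          refine ⟨trunc (ℓ j) s, trunc (ℓ j) s', ?_, ?_, ?_⟩
          · intro h
            exact hne (congrFun h ⟨i, hi⟩)
          · have := hcon (trunc (ℓ j) s)
            simp only [mem_ofPred_eq, X_ext_trunc, Set.mem_sdiff, not_and, not_not] at this ⊢
            exact this h1
          · have := hcon (trunc (ℓ j) s')
            simp only [mem_ofPred_eq, X_ext_trunc, Set.mem_sdiff, not_and, not_not] at this ⊢
            exact this h2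
        · left; exact ⟨hw, hR'⟩
      refine (measure_mono hsub).trans ((measure_union_le _ _).trans ?_)
      have h2 : volume (⋃ u : Fin (ℓ j) → Fin (m + 1),
            {w | X β w (ext m (ℓ j) u) (ℓ j) ∈ II m β \ G m β K ℓ V t (j + 1)}) ≤ δ j / 16 := by
        refine (measure_iUnion_le _).trans ?_
        rw [tsum_fintype]
        have h3 : ∀ u : Fin (ℓ j) → Fin (m + 1),
            volume {w | X β w (ext m (ℓ j) u) (ℓ j) ∈ II m β \ G m β K ℓ V t (j + 1)} ≤
              δ (j + 1) := by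
          intro u
          rw [volume_X_preimage hβ]
          calc ENNReal.ofReal ((β ^ (ℓ j))⁻¹) * volume (II m β \ G m β K ℓ V t (j + 1))
              ≤ 1 * δ (j + 1) := by
                refine mul_le_mul' ?_ (ih (j + 1))
                rw [← ENNReal.ofReal_one]
                exact ENNReal.ofReal_le_ofReal (inv_le_one_of_one_le₀ (one_le_pow₀ hβ.le))
            _ = δ (j + 1) := one_mul _
        refine (Finset.sum_le_sum fun u _ => h3 u).trans ?_
        rw [Finset.sum_const, Finset.card_univ, Fintype.card_fun, Fintype.card_fin,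
          Fintype.card_fin, nsmul_eq_mul]
        refine le_trans (le_of_eq ?_) (hδ j)
        push_cast
        rfl
      calc volume (II m β \ RR m β (ℓ j)) + _ ≤ δ j / 16 + δ j / 16 := add_le_add (hR j) h2
        _ = δ j / 8 := by
          rw [ENNReal.div_add_div_same, ← two_mul]
          rw [ENNReal.div_eq_inv_mul, ENNReal.div_eq_inv_mul, ← mul_assoc]
          congr 1
          rw [show (16 : ℝ≥0∞) = 8 * 2 by norm_num, ENNReal.mul_inv (by norm_num) (by norm_num),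
            mul_assoc, ENNReal.inv_mul_cancel (by norm_num) (by norm_num), mul_one]
    have hland := landing hβ hm1 {s : ℕ → Fin (m + 1) | trunc (K j) s ∈ V j} (K j) B
    have hsub2 : II m β \ G m β K ℓ V (t + 1) j ⊆
        (II m β \ {x | ∃ v ∈ V j, X β x (ext m (K j) v) (K j) ∈ II m β}) ∪
        ({x | ∃ s ∈ {s : ℕ → Fin (m + 1) | trunc (K j) s ∈ V j}, X β x s (K j) ∈ II m β} \
          {x | ∃ s ∈ {s : ℕ → Fin (m + 1) | trunc (K j) s ∈ V j}, X β x s (K j) ∈ B}) := by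
      rintro z ⟨hz, hzG⟩
      by_cases h : ∃ v ∈ V j, X β z (ext m (K j) v) (K j) ∈ II m β
      · right
        obtain ⟨v, hv, hvI⟩ := h
        have htr : trunc (K j) (ext m (K j) v) = v := by
          funext i; simp [trunc, ext]
        refine ⟨⟨ext m (K j) v, by simpa [htr] using hv, hvI⟩, ?_⟩
        rintro ⟨s, hs, u, u', huu, h1, h2⟩
        apply hzG
        refine ⟨trunc (K j) s, u, u', hs, huu, ?_, ?_⟩
        · rw [X_ext_trunc]; exact h1
        · rw [X_ext_trunc]; exact h2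
      · left; exact ⟨hz, h⟩
    refine (measure_mono hsub2).trans ((measure_union_le _ _).trans ?_)
    refine (add_le_add (hV j) (hland.trans (mul_le_mul' le_rfl hIB))).trans (le_of_eq ?_)
    rw [show (4 : ℝ≥0∞) * (δ j / 8) = δ j / 2 by
      rw [ENNReal.div_eq_inv_mul, ENNReal.div_eq_inv_mul, ← mul_assoc]
      congr 1
      rw [show (8 : ℝ≥0∞) = 4 * 2 by norm_num, ENNReal.mul_inv (by norm_num) (by norm_num),
        ← mul_assoc, ENNReal.mul_inv_cancel (by norm_num) (by norm_num), one_mul]]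
    exact ENNReal.add_halves _

lemma exists_forall_of_antitone {α : Type*} [Finite α] (P : α → ℕ → Prop)
    (hP : ∀ a t, P a (t + 1) → P a t) (h : ∀ t, ∃ a, P a t) : ∃ a, ∀ t, P a t := by
  classical
  by_contra hcon
  push Not at hcon
  choose T hT using hcon
  have hanti : ∀ a t s, t ≤ s → P a s → P a t := by
    intro a t s hts
    induction s, hts using Nat.le_induction with
    | base => exact id
    | succ s _ ih => exact fun h => ih (hP a s h)
  have := Fintype.ofFinite α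
  obtain ⟨a, ha⟩ := h (Finset.univ.sup T)
  exact hT a (hanti a _ _ (Finset.le_sup (Finset.mem_univ a)) ha)

/-- The limit good set. -/
def Ginf (m : ℕ) (β : ℝ) (K ℓ : ℕ → ℕ) (V : ∀ j, Set (Fin (K j) → Fin (m + 1))) (j : ℕ) :
    Set ℝ := ⋂ t, G m β K ℓ V t j

lemma Ginf_measure {β : ℝ} (hβ : 1 < β) (hm1 : 1 ≤ m)
    {K ℓ : ℕ → ℕ} {V : ∀ j, Set (Fin (K j) → Fin (m + 1))} {δ : ℕ → ℝ≥0∞}
    (hV : ∀ j, volume (II m β \ {x | ∃ v ∈ V j, X β x (ext m (K j) v) (K j) ∈ II m β}) ≤ δ j / 2)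
    (hR : ∀ j, volume (II m β \ RR m β (ℓ j)) ≤ δ j / 16)
    (hδ : ∀ j, ((m + 1 : ℕ) : ℝ≥0∞) ^ (ℓ j) * δ (j + 1) ≤ δ j / 16) (j : ℕ) :
    volume (II m β \ Ginf m β K ℓ V j) ≤ δ j := by
  rw [Ginf, sdiff_iInter]
  rw [Monotone.measure_iUnion]
  · exact iSup_le fun t => G_measure hβ hm1 hV hR hδ t j
  · intro t s hts
    exact sdiff_subset_sdiff_right (G_antitone hβ j hts)

lemma Ginf_step {β : ℝ} {K ℓ : ℕ → ℕ} {V : ∀ j, Set (Fin (K j) → Fin (m + 1))} (hβ : 1 < β)
    {j : ℕ} {z : ℝ} (hz : z ∈ Ginf m β K ℓ V j) :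
    ∃ (v : Fin (K j) → Fin (m + 1)) (u u' : Fin (ℓ j) → Fin (m + 1)),
      v ∈ V j ∧ u ≠ u' ∧
      X β (X β z (ext m (K j) v) (K j)) (ext m (ℓ j) u) (ℓ j) ∈ Ginf m β K ℓ V (j + 1) ∧
      X β (X β z (ext m (K j) v) (K j)) (ext m (ℓ j) u') (ℓ j) ∈ Ginf m β K ℓ V (j + 1) := by
  classical
  let P : (Fin (K j) → Fin (m + 1)) × (Fin (ℓ j) → Fin (m + 1)) × (Fin (ℓ j) → Fin (m + 1)) →
      ℕ → Prop := fun p t => p.1 ∈ V j ∧ p.2.1 ≠ p.2.2 ∧
      X β (X β z (ext m (K j) p.1) (K j)) (ext m (ℓ j) p.2.1) (ℓ j) ∈ G m β K ℓ V t (j + 1) ∧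
      X β (X β z (ext m (K j) p.1) (K j)) (ext m (ℓ j) p.2.2) (ℓ j) ∈ G m β K ℓ V t (j + 1)
  obtain ⟨⟨v, u, u'⟩, h⟩ := exists_forall_of_antitone P (by
    rintro p t ⟨h1, h2, h3, h4⟩
    exact ⟨h1, h2, G_anti hβ _ _ h3, G_anti hβ _ _ h4⟩) (by
    intro t
    obtain ⟨v, u, u', h⟩ := mem_iInter.1 hz (t + 1)
    exact ⟨(v, u, u'), h⟩)
  exact ⟨v, u, u', (h 0).1, (h 0).2.1, mem_iInter.2 fun t => (h t).2.2.1,
    mem_iInter.2 fun t => (h t).2.2.2⟩

/-- The engine: a point of the limit good set has a tree of expansions. -/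
lemma engine {β : ℝ} (hβ : 1 < β) {K ℓ : ℕ → ℕ} {V : ∀ j, Set (Fin (K j) → Fin (m + 1))}
    (hlen : ∀ j, 1 ≤ K j + ℓ j) (n : ℕ → ℕ) (hn0 : n 0 = 0)
    (hn : ∀ j, n (j + 1) = n j + (K j + ℓ j)) {x : ℝ} (hx : x ∈ Ginf m β K ℓ V 0) :
    ∃ ε : (ℕ → Bool) → (ℕ → Fin (m + 1)), Function.Injective ε ∧
      ∀ b, (∀ n, X β x (ε b) n ∈ II m β) ∧
        ∀ j, (fun i : Fin (K j) => ε b (n j + i)) ∈ V j := by
  classical
  have hstep : ∀ (j : ℕ) (z : ℝ), ∃ (v : Fin (K j) → Fin (m + 1))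
      (u u' : Fin (ℓ j) → Fin (m + 1)), z ∈ Ginf m β K ℓ V j →
      v ∈ V j ∧ u ≠ u' ∧
      X β (X β z (ext m (K j) v) (K j)) (ext m (ℓ j) u) (ℓ j) ∈ Ginf m β K ℓ V (j + 1) ∧
      X β (X β z (ext m (K j) v) (K j)) (ext m (ℓ j) u') (ℓ j) ∈ Ginf m β K ℓ V (j + 1) := by
    intro j z
    by_cases hz : z ∈ Ginf m β K ℓ V j
    · obtain ⟨v, u, u', h⟩ := Ginf_step hβ hz
      exact ⟨v, u, u', fun _ => h⟩
    · exact ⟨fun _ => 0, fun _ => 0, fun _ => 0, fun h => absurd h hz⟩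
  choose v u u' hvu using hstep
  -- the states
  let W : Bool → ℕ → ℝ → ℕ → Fin (m + 1) := fun c j z i =>
    if i < K j then ext m (K j) (v j z) i else
      ext m (ℓ j) (bif c then u j z else u' j z) (i - K j)
  have hWK : ∀ c j z, X β z (W c j z) (K j) = X β z (ext m (K j) (v j z)) (K j) := by
    intro c j z
    exact X_congr β z fun i hi => by simp [W, hi]
  have hW : ∀ c j z, X β z (W c j z) (K j + ℓ j) =
      X β (X β z (ext m (K j) (v j z)) (K j)) (ext m (ℓ j) (bif c then u j z else u' j z))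
        (ℓ j) := by
    intro c j z
    rw [X_add, hWK]
    congr 1
    funext i
    simp [W]
  let y : (ℕ → Bool) → ℕ → ℝ := fun b j =>
    Nat.rec x (fun j z => X β z (W (b j) j z) (K j + ℓ j)) j
  have hy0 : ∀ b, y b 0 = x := fun b => rfl
  have hys : ∀ b j, y b (j + 1) = X β (y b j) (W (b j) j (y b j)) (K j + ℓ j) := fun b j => rfl
  have hyG : ∀ b j, y b j ∈ Ginf m β K ℓ V j := by
    intro b j
    induction j with
    | zero => exact hx
    | succ j ih =>
      obtain ⟨h1, h2, h3, h4⟩ := hvu j (y b j) ih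
      rw [hys, hW]
      cases b j with
      | true => exact h3
      | false => exact h4
  have hex : ∀ b : ℕ → Bool, ∃ ε : ℕ → Fin (m + 1), ∀ j, ∀ i < K j + ℓ j,
      ε (n j + i) = W (b j) j (y b j) i := fun b =>
    exists_concat (fun j => K j + ℓ j) hlen (fun j => W (b j) j (y b j)) n hn0 hn
  choose ε hε using hex
  have hXn : ∀ b j, X β x (ε b) (n j) = y b j := by
    intro b j
    induction j with
    | zero => rw [hn0]; rfl
    | succ j ih =>
      rw [hn, X_add, ih, hys]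
      exact X_congr β _ fun i hi => hε b j i hi
  have hmono : StrictMono n := strictMono_nat_of_lt_succ fun j => by
    have := hlen j; rw [hn]; omega
  refine ⟨ε, ?_, ?_⟩
  · intro b b' hbb
    by_contra hne
    have hex : ∃ j, b j ≠ b' j := Function.ne_iff.1 hne
    set j := Nat.find hex with hj
    have hjne : b j ≠ b' j := Nat.find_spec hex
    have hyeq : y b j = y b' j := by
      rw [← hXn, ← hXn, hbb]
    obtain ⟨h1, h2, -, -⟩ := hvu j (y b j) (hyG b j)
    apply h2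
    have hu : ∀ i : Fin (ℓ j), (bif b j then u j (y b j) else u' j (y b j)) i =
        (bif b' j then u j (y b j) else u' j (y b j)) i := by
      intro i
      have e1 := hε b j (K j + i) (by have := i.2; omega)
      have e2 := hε b' j (K j + i) (by have := i.2; omega)
      rw [hbb, e2, ← hyeq] at e1
      simpa [W, ext] using e1.symm
    funext i
    have := hu i
    cases hb : b j <;> cases hb' : b' j
    · exact absurd (hb.trans hb'.symm) hjne
    · rw [hb, hb'] at this; exact this.symm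
    · rw [hb, hb'] at this; exact this
    · exact absurd (hb.trans hb'.symm) hjne
  · intro b
    refine ⟨?_, ?_⟩
    · intro k
      have hk : k ≤ n k := hmono.id_le k
      refine mem_II_of_le' hβ hk ?_
      rw [hXn]
      have := mem_iInter.1 (hyG b k) 0
      exact this
    · intro j
      have h1 := (hvu j (y b j) (hyG b j)).1
      have h2 : (fun i : Fin (K j) => ε b (n j + i)) = v j (y b j) := by
        funext i
        rw [hε b j i (by have := i.2; omega)]
        simp [W, ext]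
      rw [h2]; exact h1

end Q92.BX
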