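import Pool.Agent.Q92.BX.Engine

/-!
Digit frequencies.
-/

open Set Filter Topology MeasureTheory
open scoped ENNReal

namespace Q92.BX

variable {m : ℕ}

/-- Number of occurrences of the digit `k` among the first `n` digits. -/
def cnt (k : Fin (m + 1)) (s : ℕ → Fin (m + 1)) (n : ℕ) : ℕ :=
  ((Finset.range n).filter fun i => s i = k).card

lemma cnt_le (k : Fin (m + 1)) (s : ℕ → Fin (m + 1)) (n : ℕ) : cnt k s n ≤ n := by
  refine (Finset.card_filter_le _ _).trans ?_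
  rw [Finset.card_range]

lemma cnt_congr (k : Fin (m + 1)) {s t : ℕ → Fin (m + 1)} {n : ℕ} (h : ∀ i < n, s i = t i) :
    cnt k s n = cnt k t n := by
  unfold cnt
  congr 1
  refine Finset.filter_congr fun i hi => ?_
  rw [h i (Finset.mem_range.1 hi)]

lemma cnt_succ (k : Fin (m + 1)) (s : ℕ → Fin (m + 1)) (n : ℕ) :
    cnt k s (n + 1) = cnt k s n + if s n = k then 1 else 0 := by
  unfold cnt
  rw [Finset.range_add_one, Finset.filter_insert]
  split_ifs with h
  · rw [Finset.card_insert_of_notMem]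
    simp
  · rfl

lemma cnt_add (k : Fin (m + 1)) (s : ℕ → Fin (m + 1)) (n r : ℕ) :
    cnt k s (n + r) = cnt k s n + cnt k (fun i => s (n + i)) r := by
  induction r with
  | zero => simp [cnt]
  | succ r ih => rw [← add_assoc, cnt_succ, ih, cnt_succ, add_assoc]

/-- The set of expansions of `x` with prescribed upper and lower frequencies. -/
def EE (β : ℝ) (p q : Fin (m + 1) → ℝ) (x : ℝ) : Set (ℕ → Fin (m + 1)) :=
  {s | HasSum (fun i => ((s i : ℕ) : ℝ) / β ^ (i + 1)) x ∧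
    ∀ k, limsup (fun n : ℕ => (cnt k s n : ℝ) / n) atTop = p k ∧
      liminf (fun n : ℕ => (cnt k s n : ℝ) / n) atTop = q k}

lemma mem_II_of_hasSum {β : ℝ} (hβ : 1 < β) {x : ℝ} {s : ℕ → Fin (m + 1)}
    (h : HasSum (fun i => ((s i : ℕ) : ℝ) / β ^ (i + 1)) x) : x ∈ II m β := by
  have hβ0 : 0 < β := by linarith
  constructor
  · exact h.nonneg fun i => by positivity
  · have hg : HasSum (fun i : ℕ => (m : ℝ) / β ^ (i + 1)) (m / (β - 1)) := by
      have h1 := (hasSum_geometric_of_lt_one (r := β⁻¹) (by positivity)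
        (inv_lt_one_of_one_lt₀ hβ)).mul_left ((m : ℝ) / β)
      have e1 : (fun i : ℕ => (m : ℝ) / β ^ (i + 1)) = fun i => (m : ℝ) / β * β⁻¹ ^ i := by
        funext i
        rw [pow_succ, inv_pow]
        field_simp
      have e2 : (m : ℝ) / (β - 1) = (m : ℝ) / β * (1 - β⁻¹)⁻¹ := by
        have : β - 1 ≠ 0 := by linarith
        have h3 : (1 : ℝ) - β⁻¹ = (β - 1) / β := by field_simp
        rw [h3, inv_div]
        field_simp
      rw [e1, e2]
      exact h1
    refine hasSum_le (fun i => ?_) h hg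
    have : ((s i : ℕ) : ℝ) ≤ m := by exact_mod_cast Nat.lt_succ_iff.1 (s i).2
    gcongr

lemma hasSum_shift {β : ℝ} (hβ : 1 < β) {x : ℝ} {s : ℕ → Fin (m + 1)}
    (h : HasSum (fun i => ((s i : ℕ) : ℝ) / β ^ (i + 1)) x) :
    HasSum (fun i => ((s (i + 1) : ℕ) : ℝ) / β ^ (i + 1)) (β * x - ((s 0 : ℕ) : ℝ)) := by
  have hβ0 : 0 < β := by linarith
  have h1 := (hasSum_nat_add_iff' 1).2 (h.mul_left β)
  have e1 : (fun i => ((s (i + 1) : ℕ) : ℝ) / β ^ (i + 1)) =
      fun i => β * (((s (i + 1) : ℕ) : ℝ) / β ^ (i + 1 + 1)) := by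
    funext i
    rw [pow_succ β (i + 1)]
    field_simp
  have e2 : β * x - ((s 0 : ℕ) : ℝ) =
      β * x - ∑ i ∈ Finset.range 1, β * (((s i : ℕ) : ℝ) / β ^ (i + 1)) := by
    simp
    field_simp
  rw [e1, e2]
  exact h1

lemma hasSum_iff {β : ℝ} (hβ : 1 < β) {x : ℝ} {s : ℕ → Fin (m + 1)} :
    HasSum (fun i => ((s i : ℕ) : ℝ) / β ^ (i + 1)) x ↔ ∀ n, X β x s n ∈ II m β := by
  have hβ0 : 0 < β := by linarith
  constructor
  · intro h n
    have key : HasSum (fun i => ((s (i + n) : ℕ) : ℝ) / β ^ (i + 1)) (X β x s n) := by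
      induction n with
      | zero => simpa using h
      | succ n ih =>
        have := hasSum_shift (s := fun i => s (i + n)) hβ ih
        rw [X_succ]
        simp only [zero_add] at this
        have e : (fun i => ((s (i + (n + 1)) : ℕ) : ℝ) / β ^ (i + 1)) =
            fun i => ((s (i + 1 + n) : ℕ) : ℝ) / β ^ (i + 1) := by
          funext i
          rw [show i + (n + 1) = i + 1 + n by ring]
        rw [e]
        exact this
    exact mem_II_of_hasSum hβ (s := fun i => s (i + n)) key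
  · intro h
    rw [hasSum_iff_tendsto_nat_of_nonneg (fun i => by positivity)]
    have hpart : ∀ n, ∑ i ∈ Finset.range n, ((s i : ℕ) : ℝ) / β ^ (i + 1) =
        x - X β x s n / β ^ n := by
      intro n
      induction n with
      | zero => simp
      | succ n ih =>
        rw [Finset.sum_range_succ, ih, X_succ, pow_succ]
        have : β ^ n ≠ 0 := by positivity
        field_simp
        ring
    have hlim : Tendsto (fun n => X β x s n / β ^ n) atTop (𝓝 0) := by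
      have h1 : Tendsto (fun n : ℕ => (m / (β - 1)) * (β⁻¹) ^ n) atTop (𝓝 ((m / (β - 1)) * 0)) :=
        (tendsto_pow_atTop_nhds_zero_of_lt_one (by positivity)
          (inv_lt_one_of_one_lt₀ hβ)).const_mul _
      rw [mul_zero] at h1
      refine squeeze_zero (fun n => div_nonneg (h n).1 (by positivity)) (fun n => ?_) h1
      rw [inv_pow, div_eq_mul_inv]
      exact mul_le_mul_of_nonneg_right (h n).2 (by positivity)
    have h2 := tendsto_const_nhds (x := x).sub hlim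
    rw [sub_zero] at h2
    refine h2.congr fun n => (hpart n).symm

lemma limsup_eq_iff {u : ℕ → ℝ} (h0 : ∀ n, 0 ≤ u n) (h1 : ∀ n, u n ≤ 1) (a : ℝ) :
    limsup u atTop = a ↔ (∀ ε > 0, ∀ᶠ n in atTop, u n ≤ a + ε) ∧
      (∀ ε > 0, ∃ᶠ n in atTop, a - ε ≤ u n) := by
  have hb : IsBoundedUnder (· ≤ ·) atTop u := isBoundedUnder_of ⟨1, h1⟩
  have hb' : IsBoundedUnder (· ≥ ·) atTop u := isBoundedUnder_of ⟨0, h0⟩
  constructor
  · rintro rfl
    constructor
    · intro ε hε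
      exact (eventually_lt_of_limsup_lt (by linarith) hb).mono fun n hn => hn.le
    · intro ε hε
      exact (frequently_lt_of_lt_limsup hb'.isCoboundedUnder_le (by linarith)).mono
        fun n hn => hn.le
  · rintro ⟨h2, h3⟩
    apply le_antisymm
    · refine le_of_forall_pos_le_add fun ε hε => ?_
      exact limsup_le_of_le hb'.isCoboundedUnder_le (h2 ε hε)
    · refine le_of_forall_pos_le_add fun ε hε => ?_
      have := le_limsup_of_frequently_le (h3 ε hε) hb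
      linarith

lemma liminf_eq_iff {u : ℕ → ℝ} (h0 : ∀ n, 0 ≤ u n) (h1 : ∀ n, u n ≤ 1) (a : ℝ) :
    liminf u atTop = a ↔ (∀ ε > 0, ∀ᶠ n in atTop, a - ε ≤ u n) ∧
      (∀ ε > 0, ∃ᶠ n in atTop, u n ≤ a + ε) := by
  have hb : IsBoundedUnder (· ≤ ·) atTop u := isBoundedUnder_of ⟨1, h1⟩
  have hb' : IsBoundedUnder (· ≥ ·) atTop u := isBoundedUnder_of ⟨0, h0⟩
  constructor
  · rintro rfl
    constructor
    · intro ε hε
      exact (eventually_lt_of_lt_liminf (by linarith) hb').mono fun n hn => hn.le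
    · intro ε hε
      exact (frequently_lt_of_liminf_lt hb.isCoboundedUnder_ge (by linarith)).mono
        fun n hn => hn.le
  · rintro ⟨h2, h3⟩
    apply le_antisymm
    · refine le_of_forall_pos_le_add fun ε hε => ?_
      exact liminf_le_of_frequently_le (h3 ε hε) hb'
    · refine le_of_forall_pos_le_add fun ε hε => ?_
      have := le_liminf_of_le hb.isCoboundedUnder_ge (h2 ε hε)
      linarith

lemma cnt_div_nonneg (k : Fin (m + 1)) (s : ℕ → Fin (m + 1)) (n : ℕ) :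
    0 ≤ (cnt k s n : ℝ) / n := by positivity

lemma cnt_div_le_one (k : Fin (m + 1)) (s : ℕ → Fin (m + 1)) (n : ℕ) :
    (cnt k s n : ℝ) / n ≤ 1 := by
  have : (cnt k s n : ℝ) ≤ n := by exact_mod_cast cnt_le k s n
  exact div_le_one_of_le₀ this (Nat.cast_nonneg n)

/-- Words whose frequencies are controlled up to time `K`. -/
def GoodW (p q : Fin (m + 1) → ℝ) (N L : ℕ) (η : ℝ) (K : ℕ) : Set (ℕ → Fin (m + 1)) :=
  {s | (∀ k, ∀ n, N ≤ n → n ≤ K → (q k - η) * n ≤ cnt k s n ∧ (cnt k s n : ℝ) ≤ (p k + η) * n) ∧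
    (∀ k, ∃ n, L ≤ n ∧ n ≤ K ∧ (p k - η) * n ≤ cnt k s n) ∧
    (∀ k, ∃ n, L ≤ n ∧ n ≤ K ∧ (cnt k s n : ℝ) ≤ (q k + η) * n)}

lemma GoodW_congr {p q : Fin (m + 1) → ℝ} {N L : ℕ} {η : ℝ} {K : ℕ} {s t : ℕ → Fin (m + 1)}
    (h : ∀ i < K, s i = t i) (hs : s ∈ GoodW p q N L η K) : t ∈ GoodW p q N L η K := by
  have hc : ∀ k n, n ≤ K → cnt k s n = cnt k t n := fun k n hn =>
    cnt_congr k fun i hi => h i (by omega)
  obtain ⟨h1, h2, h3⟩ := hs
  refine ⟨fun k n hn hnK => ?_, fun k => ?_, fun k => ?_⟩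
  · rw [← hc k n hnK]; exact h1 k n hn hnK
  · obtain ⟨n, hn, hnK, h⟩ := h2 k
    exact ⟨n, hn, hnK, by rw [← hc k n hnK]; exact h⟩
  · obtain ⟨n, hn, hnK, h⟩ := h3 k
    exact ⟨n, hn, hnK, by rw [← hc k n hnK]; exact h⟩

/-- Points with a good word. -/
def HH (β : ℝ) (p q : Fin (m + 1) → ℝ) (N L : ℕ) (η : ℝ) (K : ℕ) : Set ℝ :=
  {x | ∃ v ∈ {v : Fin K → Fin (m + 1) | ext m K v ∈ GoodW p q N L η K},
    X β x (ext m K v) K ∈ II m β}

lemma HH_closed (β : ℝ) (p q : Fin (m + 1) → ℝ) (N L : ℕ) (η : ℝ) (K : ℕ) :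
    IsClosed (HH β p q N L η K) := by
  have : HH β p q N L η K = ⋃ v : {v : Fin K → Fin (m + 1) // ext m K v ∈ GoodW p q N L η K},
      {x | X β x (ext m K v.1) K ∈ II m β} := by
    ext x
    simp [HH]
  rw [this]
  exact isClosed_iUnion_of_finite fun v => (II_closed m β).preimage (X_continuous β _ K)

lemma mem_HH {β : ℝ} {p q : Fin (m + 1) → ℝ} {N L : ℕ} {η : ℝ} {K : ℕ} {x : ℝ}
    {s : ℕ → Fin (m + 1)} (hs : s ∈ GoodW p q N L η K) (hx : X β x s K ∈ II m β) :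
    x ∈ HH β p q N L η K := by
  refine ⟨trunc K s, ?_, ?_⟩
  · exact GoodW_congr (fun i hi => (ext_trunc K s hi).symm) hs
  · rw [X_ext_trunc]; exact hx

/-- The hypothesis feeding the engine. -/
def GoodHyp (β : ℝ) (p q : Fin (m + 1) → ℝ) : Prop :=
  ∀ η : ℝ, 0 < η → ∀ τ : ℝ≥0∞, τ ≠ 0 → ∃ N : ℕ, ∀ L : ℕ, ∃ K₀ : ℕ, ∀ K, K₀ ≤ K →
    volume (II m β \ HH β p q N L η K) ≤ τ

/-- The points with an eventually controlled sequence form a large set. -/
lemma goodHyp_of_ae {β : ℝ} {p q : Fin (m + 1) → ℝ}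
    (h : ∀ η : ℝ, 0 < η → ∀ᵐ x ∂(volume.restrict (II m β)), ∃ N : ℕ, ∀ L : ℕ, ∃ K₀ : ℕ,
      ∀ K, K₀ ≤ K → x ∈ HH β p q N L η K) : GoodHyp β p q := by
  intro η hη τ hτ
  have hHm : ∀ N L K, MeasurableSet (HH β p q N L η K) := fun N L K =>
    (HH_closed β p q N L η K).measurableSet
  set Z : ℕ → Set ℝ := fun N => ⋂ L : ℕ, ⋃ K₀ : ℕ, ⋂ K : ℕ, ⋂ _ : K₀ ≤ K, HH β p q N L η K
    with hZ
  have hZm : ∀ N, MeasurableSet (Z N) := fun N =>
    MeasurableSet.iInter fun L => MeasurableSet.iUnion fun K₀ => MeasurableSet.iInter fun K =>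
      MeasurableSet.iInter fun _ => hHm N L K
  have hHmono : ∀ {N N' : ℕ}, N ≤ N' → ∀ L K, HH β p q N L η K ⊆ HH β p q N' L η K := by
    intro N N' hN L K x
    rintro ⟨v, ⟨h1, h2, h3⟩, hx⟩
    exact ⟨v, ⟨fun k n hn hnK => h1 k n (by omega) hnK, h2, h3⟩, hx⟩
  have hZmono : Monotone Z := by
    intro N N' hN x hx
    simp only [hZ, mem_iInter, mem_iUnion] at hx ⊢
    intro L
    obtain ⟨K₀, hK⟩ := hx L
    exact ⟨K₀, fun K hKK => hHmono hN L K (hK K hKK)⟩
  have hvol : volume (II m β) ≠ ⊤ := by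
    rw [II, Real.volume_Icc]; exact ENNReal.ofReal_ne_top
  have hnull : volume (⋂ N, (II m β \ Z N)) = 0 := by
    have h1 := h η hη
    rw [ae_restrict_iff' (II_closed m β).measurableSet] at h1
    have h2 : volume {x | ¬ (x ∈ II m β → ∃ N : ℕ, ∀ L : ℕ, ∃ K₀ : ℕ,
      ∀ K, K₀ ≤ K → x ∈ HH β p q N L η K)} = 0 := h1
    refine measure_mono_null ?_ h2
    intro x hx
    rw [mem_iInter] at hx
    simp only [mem_ofPred_eq]
    intro hcon
    obtain ⟨N, hN⟩ := hcon (hx 0).1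
    refine (hx N).2 ?_
    simp only [hZ, mem_iInter, mem_iUnion]
    exact hN
  have ht : Tendsto (fun N => volume (II m β \ Z N)) atTop (𝓝 (volume (⋂ N, (II m β \ Z N)))) := by
    refine tendsto_measure_iInter_atTop ?_ ?_ ?_
    · exact fun N => ((II_closed m β).measurableSet.diff (hZm N)).nullMeasurableSet
    · exact fun N N' hN => sdiff_subset_sdiff_right (hZmono hN)
    · exact ⟨0, ((measure_mono sdiff_subset).trans_lt hvol.lt_top).ne⟩
  rw [hnull] at ht
  obtain ⟨N, hN⟩ := (ht.eventually_lt_const (pos_iff_ne_zero.2 hτ)).exists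
  refine ⟨N, fun L => ?_⟩
  set D : ℕ → Set ℝ := fun K₀ => II m β \ ⋂ K : ℕ, ⋂ _ : K₀ ≤ K, HH β p q N L η K with hD
  have ht2 : Tendsto (fun K₀ => volume (D K₀)) atTop (𝓝 (volume (⋂ K₀, D K₀))) := by
    refine tendsto_measure_iInter_atTop ?_ ?_ ?_
    · exact fun K₀ => ((II_closed m β).measurableSet.diff (MeasurableSet.iInter fun K =>
        MeasurableSet.iInter fun _ => hHm N L K)).nullMeasurableSet
    · intro K₀ K₁ hK
      refine sdiff_subset_sdiff_right ?_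
      intro x hx
      simp only [mem_iInter] at hx ⊢
      exact fun K hKK => hx K (by omega)
    · exact ⟨0, ((measure_mono sdiff_subset).trans_lt hvol.lt_top).ne⟩
  have hlt : volume (⋂ K₀, D K₀) < τ := by
    refine (measure_mono ?_).trans_lt hN
    intro x hx
    rw [mem_iInter] at hx
    refine ⟨(hx 0).1, fun hxZ => ?_⟩
    simp only [hZ, mem_iInter, mem_iUnion] at hxZ
    obtain ⟨K₀, hK₀⟩ := hxZ L
    refine (hx K₀).2 ?_
    simp only [mem_iInter]
    exact hK₀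
  obtain ⟨K₀, hK₀⟩ := (ht2.eventually_lt_const hlt).exists
  refine ⟨K₀, fun K hK => le_trans (measure_mono ?_) hK₀.le⟩
  rintro x ⟨hx, hxH⟩
  refine ⟨hx, fun hcon => hxH ?_⟩
  simp only [mem_iInter] at hcon
  exact hcon K hK

lemma goodHyp_of_nonempty {β : ℝ} (hβ : 1 < β) {p q : Fin (m + 1) → ℝ}
    (h : ∀ᵐ x ∂(volume.restrict (II m β)), (EE β p q x).Nonempty) : GoodHyp β p q := by
  apply goodHyp_of_ae
  intro η hη
  filter_upwards [h] with x hx
  obtain ⟨s, hs, hfreq⟩ := hx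
  have hX := (hasSum_iff hβ).1 hs
  have hev : ∀ k, ∃ N, ∀ n, N ≤ n → (q k - η) * n ≤ cnt k s n ∧
      (cnt k s n : ℝ) ≤ (p k + η) * n := by
    intro k
    have h1 := ((limsup_eq_iff (cnt_div_nonneg k s) (cnt_div_le_one k s) _).1 (hfreq k).1).1 η hη
    have h2 := ((liminf_eq_iff (cnt_div_nonneg k s) (cnt_div_le_one k s) _).1 (hfreq k).2).1 η hη
    obtain ⟨N, hN⟩ := eventually_atTop.1 ((h1.and h2).and (eventually_ge_atTop 1))
    refine ⟨N, fun n hn => ?_⟩
    obtain ⟨⟨h3, h4⟩, h5⟩ := hN n hn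
    have hn0 : (0 : ℝ) < n := by exact_mod_cast h5
    rw [div_le_iff₀ hn0] at h3
    rw [le_div_iff₀ hn0] at h4
    exact ⟨h4, h3⟩
  choose N hN using hev
  refine ⟨Finset.univ.sup N, fun L => ?_⟩
  have hfr1 : ∀ k, ∃ n, L ≤ n ∧ (p k - η) * n ≤ cnt k s n := by
    intro k
    have h1 := ((limsup_eq_iff (cnt_div_nonneg k s) (cnt_div_le_one k s) _).1 (hfreq k).1).2 η hη
    obtain ⟨n, hn1, hn2⟩ := (h1.and_eventually (eventually_ge_atTop (max L 1))).exists
    have hn0 : (0 : ℝ) < n := by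
      have : 1 ≤ n := (le_max_right L 1).trans hn2
      exact_mod_cast this
    rw [le_div_iff₀ hn0] at hn1
    exact ⟨n, (le_max_left L 1).trans hn2, hn1⟩
  have hfr2 : ∀ k, ∃ n, L ≤ n ∧ (cnt k s n : ℝ) ≤ (q k + η) * n := by
    intro k
    have h1 := ((liminf_eq_iff (cnt_div_nonneg k s) (cnt_div_le_one k s) _).1 (hfreq k).2).2 η hη
    obtain ⟨n, hn1, hn2⟩ := (h1.and_eventually (eventually_ge_atTop (max L 1))).exists
    have hn0 : (0 : ℝ) < n := by
      have : 1 ≤ n := (le_max_right L 1).trans hn2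
      exact_mod_cast this
    rw [div_le_iff₀ hn0] at hn1
    exact ⟨n, (le_max_left L 1).trans hn2, hn1⟩
  choose n1 hn1 hn1' using hfr1
  choose n2 hn2 hn2' using hfr2
  refine ⟨max (Finset.univ.sup n1) (Finset.univ.sup n2), fun K hK => ?_⟩
  apply mem_HH (s := s) _ (hX K)
  refine ⟨fun k n hn _ => hN k n ((Finset.le_sup (Finset.mem_univ k)).trans hn),
    fun k => ⟨n1 k, hn1 k, ?_, hn1' k⟩, fun k => ⟨n2 k, hn2 k, ?_, hn2' k⟩⟩
  · exact (Finset.le_sup (Finset.mem_univ k)).trans ((le_max_left _ _).trans hK)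
  · exact (Finset.le_sup (Finset.mem_univ k)).trans ((le_max_right _ _).trans hK)

end Q92.BX
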