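import Pool.Agent.Q92.BX.Tmap
import Pool.Agent.H165R3.Birk

/-!
An invariant probability measure for the map `TT`, and almost sure digit frequencies.
-/

open Set Filter Topology MeasureTheory
open scoped ENNReal

namespace Q92.BX

section General

variable {Ω : Type*} [MeasurableSpace Ω]

/-- An invariant measure from a uniform density bound. -/
theorem exists_invariant (lam : Measure Ω) [IsProbabilityMeasure lam] (T : Ω → Ω)
    (hT : Measurable T) (C : ℝ) (hC : ∀ n A, MeasurableSet A →
      (lam (T^[n] ⁻¹' A)).toReal ≤ C * (lam A).toReal) :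
    ∃ μ : Measure Ω, IsProbabilityMeasure μ ∧ MeasurePreserving T μ μ ∧
      ∀ A, MeasurableSet A → lam A = 0 → μ A = 0 := by
  classical
  set b : ℕ → Set Ω → ℝ := fun k A => (lam (T^[k] ⁻¹' A)).toReal with hb
  have hb0 : ∀ k A, 0 ≤ b k A := fun k A => ENNReal.toReal_nonneg
  have hb1 : ∀ k A, b k A ≤ 1 := fun k A => by
    have := ENNReal.toReal_mono ENNReal.one_ne_top (prob_le_one (μ := lam) (s := T^[k] ⁻¹' A))
    simpa using this
  set a : ℕ → Set Ω → ℝ := fun n A => (∑ k ∈ Finset.range (n + 1), b k A) / ((n : ℝ) + 1) with ha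
  have hn0 : ∀ n : ℕ, (0 : ℝ) < (n : ℝ) + 1 := fun n => by positivity
  have ha0 : ∀ n A, 0 ≤ a n A := fun n A =>
    div_nonneg (Finset.sum_nonneg fun k _ => hb0 k A) (hn0 n).le
  have ha1 : ∀ n A, a n A ≤ 1 := fun n A => by
    rw [ha]
    simp only
    rw [div_le_one (hn0 n)]
    refine (Finset.sum_le_sum fun k _ => hb1 k A).trans ?_
    simp
  have haC : ∀ n A, MeasurableSet A → a n A ≤ C * (lam A).toReal := fun n A hA => by
    rw [ha]
    simp only
    rw [div_le_iff₀ (hn0 n)]
    refine (Finset.sum_le_sum fun k _ => hC k A hA).trans ?_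
    simp [mul_comm]
  have hex : ∀ A, ∃ l, l ∈ Icc (0 : ℝ) 1 ∧
      Tendsto (fun n => a n A) (hyperfilter ℕ : Filter ℕ) (𝓝 l) := by
    intro A
    obtain ⟨l, hl, hle⟩ := (isCompact_Icc (a := (0 : ℝ)) (b := 1)).ultrafilter_le_nhds'
      ((hyperfilter ℕ).map fun n => a n A) (by
        rw [Ultrafilter.mem_map]
        exact Filter.univ_mem' fun n => ⟨ha0 n A, ha1 n A⟩)
    exact ⟨l, hl, hle⟩
  choose L hL hLt using hex
  have hadd : ∀ A B, MeasurableSet B → Disjoint A B → L (A ∪ B) = L A + L B := by
    intro A B hB hd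
    refine tendsto_nhds_unique (hLt (A ∪ B)) (((hLt A).add (hLt B)).congr fun n => ?_)
    rw [ha]
    simp only
    rw [← add_div, ← Finset.sum_add_distrib]
    congr 1
    refine Finset.sum_congr rfl fun k _ => ?_
    rw [hb]
    simp only
    rw [preimage_union, measure_union (hd.preimage _) ((hT.iterate k) hB),
      ENNReal.toReal_add (measure_ne_top _ _) (measure_ne_top _ _)]
  have hLC : ∀ A, MeasurableSet A → L A ≤ C * (lam A).toReal := fun A hA =>
    le_of_tendsto' (hLt A) fun n => haC n A hA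
  have hempty : L ∅ = 0 := by
    refine tendsto_nhds_unique (hLt ∅) ?_
    have : (fun n => a n ∅) = fun _ => 0 := by
      funext n; simp [ha, hb]
    rw [this]; exact tendsto_const_nhds
  have huniv : L univ = 1 := by
    refine tendsto_nhds_unique (hLt univ) ?_
    have : (fun n => a n univ) = fun _ => 1 := by
      funext n
      have := (hn0 n).ne'
      simp [ha, hb, this]
    rw [this]; exact tendsto_const_nhds
  have hinv : ∀ A, L (T ⁻¹' A) = L A := by
    intro A
    have h1 : Tendsto (fun n => a n (T ⁻¹' A) - a n A) (hyperfilter ℕ : Filter ℕ) (𝓝 0) := by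
      have h2 : Tendsto (fun n : ℕ => 1 / ((n : ℝ) + 1)) (hyperfilter ℕ : Filter ℕ) (𝓝 0) :=
        tendsto_one_div_add_atTop_nhds_zero_nat.mono_left Nat.hyperfilter_le_atTop
      refine squeeze_zero_norm (fun n => ?_) h2
      have e : ∀ k, b k (T ⁻¹' A) = b (k + 1) A := by
        intro k
        rw [hb]
        simp only
        rw [← preimage_comp, ← Function.iterate_succ']
      rw [ha]
      simp only
      rw [← sub_div, Real.norm_eq_abs, abs_div, abs_of_pos (hn0 n)]
      refine div_le_div_of_nonneg_right ?_ (hn0 n).le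
      rw [Finset.sum_congr rfl fun k _ => e k, ← Finset.sum_sub_distrib,
        Finset.sum_range_sub (fun k => b k A)]
      rw [abs_le]
      constructor <;> linarith [hb0 (n + 1) A, hb1 (n + 1) A, hb0 0 A, hb1 0 A]
    have h3 := tendsto_nhds_unique h1 ((hLt (T ⁻¹' A)).sub (hLt A))
    linarith
  have hsum : ∀ f : ℕ → Set Ω, (∀ i, MeasurableSet (f i)) → Pairwise (Function.onFun Disjoint f) →
      HasSum (fun i => L (f i)) (L (⋃ i, f i)) := by
    intro f hf hd
    rw [hasSum_iff_tendsto_nat_of_nonneg (fun i => (hL _).1)]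
    have hfin : ∀ N, L (⋃ i ∈ Finset.range N, f i) = ∑ i ∈ Finset.range N, L (f i) := by
      intro N
      induction N with
      | zero => simp [hempty]
      | succ N ih =>
        rw [Finset.sum_range_succ, ← ih, ← hadd _ _ (hf N)]
        · congr 1
          rw [Finset.range_add_one, Finset.set_biUnion_insert, union_comm]
        · rw [disjoint_iUnion₂_left]
          intro i hi
          exact hd (Finset.mem_range.1 hi).ne
    have hm : ∀ N, MeasurableSet (⋃ i ∈ Finset.range N, f i) := fun N =>
      Finset.measurableSet_biUnion _ fun i _ => hf i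
    have hmU : MeasurableSet (⋃ i, f i) := MeasurableSet.iUnion hf
    have hrest : ∀ N, L (⋃ i, f i) - ∑ i ∈ Finset.range N, L (f i) =
        L ((⋃ i, f i) \ ⋃ i ∈ Finset.range N, f i) := by
      intro N
      have h1 : (⋃ i, f i) = (⋃ i ∈ Finset.range N, f i) ∪
          ((⋃ i, f i) \ ⋃ i ∈ Finset.range N, f i) := by
        rw [union_sdiff_self, union_eq_self_of_subset_left]
        exact iUnion₂_subset fun i _ => subset_iUnion f i
      have h2 := hadd (⋃ i ∈ Finset.range N, f i) ((⋃ i, f i) \ ⋃ i ∈ Finset.range N, f i)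
        (hmU.diff (hm N)) disjoint_sdiff_right
      rw [← h1, hfin] at h2
      linarith
    have hlam : Tendsto (fun N => lam ((⋃ i, f i) \ ⋃ i ∈ Finset.range N, f i)) atTop (𝓝 0) := by
      have h1 : Tendsto (fun N => lam ((⋃ i, f i) \ ⋃ i ∈ Finset.range N, f i)) atTop
          (𝓝 (lam (⋂ N, ((⋃ i, f i) \ ⋃ i ∈ Finset.range N, f i)))) := by
        refine tendsto_measure_iInter_atTop ?_ ?_ ⟨0, measure_ne_top _ _⟩
        · exact fun N => (hmU.diff (hm N)).nullMeasurableSet
        · intro N N' hN
          refine sdiff_subset_sdiff_right ?_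
          exact biUnion_subset_biUnion_left fun i hi =>
            Finset.mem_range.2 ((Finset.mem_range.1 hi).trans_le hN)
      have h2 : (⋂ N, ((⋃ i, f i) \ ⋃ i ∈ Finset.range N, f i)) = ∅ := by
        rw [eq_empty_iff_forall_notMem]
        intro x hx
        rw [mem_iInter] at hx
        obtain ⟨i, hi⟩ := mem_iUnion.1 (hx 0).1
        exact (hx (i + 1)).2 (mem_iUnion₂.2 ⟨i, Finset.mem_range.2 (Nat.lt_succ_self i), hi⟩)
      rw [h2, measure_empty] at h1
      exact h1
    have hlim : Tendsto (fun N => L (⋃ i, f i) - ∑ i ∈ Finset.range N, L (f i)) atTop (𝓝 0) := by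
      have h1 : Tendsto (fun N => C * (lam ((⋃ i, f i) \ ⋃ i ∈ Finset.range N, f i)).toReal) atTop
          (𝓝 (C * (0 : ℝ≥0∞).toReal)) :=
        ((ENNReal.tendsto_toReal ENNReal.zero_ne_top).comp hlam).const_mul C
      rw [ENNReal.toReal_zero, mul_zero] at h1
      refine squeeze_zero (fun N => ?_) (fun N => ?_) h1
      · rw [hrest]; exact (hL _).1
      · rw [hrest]; exact hLC _ (hmU.diff (hm N))
    have h3 := (tendsto_const_nhds (x := L (⋃ i, f i))).sub hlim
    rw [sub_zero] at h3
    refine h3.congr fun N => ?_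
    ring
  let μ : Measure Ω := Measure.ofMeasurable (fun A _ => ENNReal.ofReal (L A))
    (by simp [hempty]) (by
      intro f hf hd
      have h1 := hsum f hf hd
      rw [← h1.tsum_eq, ENNReal.ofReal_tsum_of_nonneg (fun i => (hL _).1) h1.summable])
  have hμ : ∀ A, MeasurableSet A → μ A = ENNReal.ofReal (L A) := fun A hA =>
    Measure.ofMeasurable_apply A hA
  refine ⟨μ, ⟨?_⟩, ⟨hT, ?_⟩, ?_⟩
  · rw [hμ _ MeasurableSet.univ, huniv, ENNReal.ofReal_one]
  · ext A hA
    rw [Measure.map_apply hT hA, hμ _ (hT hA), hμ _ hA, hinv]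
  · intro A hA h0
    have := hLC A hA
    rw [h0, ENNReal.toReal_zero, mul_zero] at this
    rw [hμ A hA, ENNReal.ofReal_eq_zero]
    exact this

end General

/-- Digit indicator. -/
noncomputable def ind (β γ : ℝ) (k : ℤ) (z : ℝ) : ℝ := if ⌊β * z + γ⌋ = k then 1 else 0

lemma ind_measurable (β γ : ℝ) (k : ℤ) : Measurable (ind β γ k) := by
  unfold ind
  refine Measurable.ite ?_ measurable_const measurable_const
  have h : Measurable fun z : ℝ => ⌊β * z + γ⌋ :=
    Int.measurable_floor.comp ((measurable_const.mul measurable_id).add measurable_const)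
  exact h (measurableSet_singleton k)

lemma ind_abs (β γ : ℝ) (k : ℤ) (z : ℝ) : |ind β γ k z| ≤ 1 := by
  unfold ind
  split_ifs <;> simp

/-- Almost sure digit frequencies. -/
theorem exists_freq {β γ : ℝ} (hβ : 2 < β) : ∃ P : ℤ → ℝ, ∀ k : ℤ,
    volume {z | z ∈ Ico (0 : ℝ) 1 ∧ ¬ Tendsto (fun n : ℕ => (n : ℝ)⁻¹ *
      ∑ j ∈ Finset.range n, ind β γ k ((TT β γ)^[j] z)) atTop (𝓝 (P k))} = 0 := by
  classical
  set lam : Measure ℝ := volume.restrict (Ico 0 1) with hlam
  have hprob : IsProbabilityMeasure lam := ⟨by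
    rw [hlam, Measure.restrict_apply MeasurableSet.univ, univ_inter, Real.volume_Ico]; simp⟩
  have hMM : ∀ A, MeasurableSet A → MM A 0 1 = (lam A).toReal := fun A hA => by
    rw [hlam, Measure.restrict_apply hA, MM]
  obtain ⟨μ, hμp, hμT, hμl⟩ := exists_invariant lam (TT β γ) (TT_measurable β γ) (CC β) (by
    intro n A hA
    rw [← hMM A hA, ← hMM _ ((TT_measurable β γ).iterate n hA)]
    exact growth' hβ A n)
  have herg : Ergodic (TT β γ) μ := by
    refine ⟨hμT, ⟨?_⟩⟩
    intro s hs hinv
    rcases zero_one hβ hs hinv with h | h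
    · rw [eventuallyConst_set']
      left
      rw [ae_eq_empty]
      apply hμl s hs
      rw [hlam, Measure.restrict_apply hs]
      exact h
    · rw [eventuallyConst_set']
      right
      rw [ae_eq_univ]
      apply hμl _ hs.compl
      rw [hlam, Measure.restrict_apply hs.compl]
      exact h
  refine ⟨fun k => ∫ x, ind β γ k x ∂μ, fun k => ?_⟩
  have hb := Pool.Agent.H165R3.birkhoff herg (ind β γ k) (ind_measurable β γ k)
    ⟨1, ind_abs β γ k⟩
  set G : Set ℝ := {z | Tendsto (fun n : ℕ => (n : ℝ)⁻¹ *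
      ∑ j ∈ Finset.range n, ind β γ k ((TT β γ)^[j] z)) atTop (𝓝 (∫ x, ind β γ k x ∂μ))} with hG
  have hGm : MeasurableSet G := by
    refine measurableSet_tendsto _ fun n => ?_
    refine measurable_const.mul (Finset.measurable_sum _ fun j _ => ?_)
    exact (ind_measurable β γ k).comp ((TT_measurable β γ).iterate j)
  have hbdd : Bornology.IsBounded (range (ind β γ k)) := by
    refine (Metric.isBounded_closedBall (x := (0 : ℝ)) (r := 1)).subset ?_
    rintro _ ⟨z, rfl⟩
    rw [Metric.mem_closedBall, dist_zero_right]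
    exact ind_abs β γ k z
  have hdiff := fun x => tendsto_birkhoffAverage_apply_sub_birkhoffAverage' ℝ hbdd (TT β γ) x
  have hGeq : ∀ z, z ∈ G ↔ Tendsto (fun n => birkhoffAverage ℝ (TT β γ) (ind β γ k) n z) atTop
      (𝓝 (∫ x, ind β γ k x ∂μ)) := fun z => Iff.rfl
  have hGinv : TT β γ ⁻¹' G = G := by
    ext z
    rw [mem_preimage, hGeq, hGeq]
    constructor
    · intro h
      have := h.sub (hdiff z)
      simpa using this
    · intro h
      have := h.add (hdiff z)
      simpa using this
  have hres : volume (Gᶜ ∩ Ico 0 1) = 0 := by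
    rcases zero_one hβ hGm hGinv with h | h
    · exfalso
      have h1 : μ G = 0 := by
        apply hμl G hGm
        rw [hlam, Measure.restrict_apply hGm]
        exact h
      have h2 : μ Gᶜ = 0 := hb
      have h3 : μ univ ≤ μ G + μ Gᶜ := by
        rw [← union_compl_self G]; exact measure_union_le _ _
      rw [h1, h2, measure_univ] at h3
      simp at h3
    · exact h
  refine measure_mono_null ?_ hres
  rintro z ⟨hz, hz'⟩
  exact ⟨hz', hz⟩

end Q92.BX
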