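import Pool.Agent.Q92.BX.Inv
import Pool.Agent.Q92.BX.Freq

/-!
The bases `β² = a (β + 1)`, `a ≥ 3`: the digits `0` and `a` have total frequency less than
`2 / (a + 1)` in every expansion of almost every point.
-/

open Set Filter Topology MeasureTheory
open scoped ENNReal

namespace Q92.BX

/-- Additivity of `MM`. -/
lemma MM_add {B : Set ℝ} (hB : MeasurableSet B) {u v w : ℝ} (huv : u ≤ v) (hvw : v ≤ w) :
    MM B u w = MM B u v + MM B v w := by
  unfold MM
  rw [← ENNReal.toReal_add (MM_ne_top _ _ _) (MM_ne_top _ _ _), ← measure_union]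
  · rw [← inter_union_distrib_left, Ico_union_Ico_eq_Ico huv hvw]
  · refine Disjoint.mono inter_subset_right inter_subset_right ?_
    rw [Ico_disjoint_Ico]
    simp
  · exact hB.inter measurableSet_Ico

/-- One branch of the greedy map. -/
lemma MM_branch {β : ℝ} (hβ : 0 < β) (B : Set ℝ) (j : ℕ) {w : ℝ} (_hw0 : 0 ≤ w) (hw : w ≤ 1) :
    MM (TT β 0 ⁻¹' B) (j / β) ((j + w) / β) = β⁻¹ * MM B 0 w := by
  have h1 : TT β 0 ⁻¹' B ∩ Ico (j / β) ((j + w) / β) =
      (fun z => β * z) ⁻¹' ((fun z => z + (-(j : ℝ))) ⁻¹' (B ∩ Ico 0 w)) := by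
    ext z
    simp only [mem_inter_iff, mem_preimage, mem_Ico]
    have key : ∀ z : ℝ, (j : ℝ) ≤ β * z → β * z < j + w → TT β 0 z = β * z + -(j : ℝ) := by
      intro z h2 h3
      have hf : ⌊β * z⌋ = (j : ℤ) := by
        rw [Int.floor_eq_iff]
        push_cast
        exact ⟨h2, by linarith⟩
      rw [TT, add_zero, Int.fract, hf]
      push_cast
      ring
    constructor
    · rintro ⟨h1, h2, h3⟩
      rw [div_le_iff₀ hβ] at h2
      rw [lt_div_iff₀ hβ] at h3
      have := key z (by linarith) (by linarith)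
      rw [this] at h1
      exact ⟨h1, by linarith, by linarith⟩
    · rintro ⟨h1, h2, h3⟩
      have := key z (by linarith) (by linarith)
      rw [div_le_iff₀ hβ, lt_div_iff₀ hβ, this]
      exact ⟨h1, by linarith, by linarith⟩
  unfold MM
  rw [h1, Real.volume_preimage_mul_left hβ.ne', measure_preimage_add_right,
    abs_of_pos (by positivity), ENNReal.toReal_mul, ENNReal.toReal_ofReal (by positivity)]

section Quad

variable {a : ℕ} {β : ℝ}

/-- The hypotheses on the base. -/
structure QB (a : ℕ) (β : ℝ) : Prop where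
  ha : 3 ≤ a
  pos : 0 < β
  eq : β ^ 2 = a * (β + 1)

lemma QB.ar (h : QB a β) : (3 : ℝ) ≤ a := by exact_mod_cast h.ha

lemma QB.gt (h : QB a β) : (a : ℝ) < β := by
  have h1 := h.ar
  have h2 := h.pos
  have h3 := h.eq
  by_contra hcon
  push Not at hcon
  nlinarith

lemma QB.lt (h : QB a β) : β < a + 1 := by
  have h1 := h.ar
  have h2 := h.pos
  have h3 := h.eq
  by_contra hcon
  push Not at hcon
  nlinarith

/-- The endpoint `b = β - a = a / β`. -/
lemma QB.b_eq (h : QB a β) : β - a = a / β := by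
  have h2 := h.pos
  have h3 := h.eq
  rw [eq_div_iff h2.ne']
  nlinarith

lemma QB.b_gt (h : QB a β) : (3 : ℝ) / 4 < β - a := by
  rw [h.b_eq, div_lt_div_iff₀ (by norm_num) h.pos]
  have h1 := h.lt
  have h2 := h.ar
  linarith

lemma QB.lam_lt (h : QB a β) : (a : ℝ) / (β - 1) < β - a + 1 := by
  have h1 := h.ar
  have h2 := h.gt
  have h3 := h.eq
  rw [div_lt_iff₀ (by linarith)]
  nlinarith

lemma QB.lam_lt_two (h : QB a β) : (a : ℝ) / (β - 1) < 2 := by
  have h1 := h.ar
  have h2 := h.gt
  rw [div_lt_iff₀ (by linarith)]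
  linarith

/-- Density constants. -/
noncomputable def al (β : ℝ) : ℝ := (β + 1) / (β + 2)

/-- Density constants. -/
noncomputable def ga (β : ℝ) : ℝ := (β + 1) / (β * (β + 2))

/-- The invariant density, as a function of sets. -/
noncomputable def mu (a : ℕ) (β : ℝ) : Measure ℝ :=
  ENNReal.ofReal (al β) • volume.restrict (Ico 0 1) +
    ENNReal.ofReal (ga β) • volume.restrict (Ico 0 (β - a))

lemma al_pos (h : QB a β) : 0 < al β := by
  have := h.pos
  unfold al; positivity

lemma ga_pos (h : QB a β) : 0 < ga β := by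
  have := h.pos
  unfold ga; positivity

lemma mu_apply (h : QB a β) {B : Set ℝ} (hB : MeasurableSet B) :
    mu a β B = ENNReal.ofReal (al β * MM B 0 1 + ga β * MM B 0 (β - a)) := by
  have h1 := al_pos h
  have h2 := ga_pos h
  rw [mu, Measure.add_apply, Measure.smul_apply, Measure.smul_apply, Measure.restrict_apply hB,
    Measure.restrict_apply hB, smul_eq_mul, smul_eq_mul,
    ENNReal.ofReal_add (mul_nonneg h1.le (MM_nonneg _ _ _)) (mul_nonneg h2.le (MM_nonneg _ _ _)),
    ENNReal.ofReal_mul h1.le, ENNReal.ofReal_mul h2.le]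
  unfold MM
  rw [ENNReal.ofReal_toReal (MM_ne_top _ _ _), ENNReal.ofReal_toReal (MM_ne_top _ _ _)]

lemma MM_Ico {u v : ℝ} (huv : u ≤ v) : MM univ u v = v - u := by
  unfold MM
  rw [univ_inter, Real.volume_Ico, ENNReal.toReal_ofReal (by linarith)]

lemma norm_rel (h : QB a β) : al β + ga β * (β - a) = 1 := by
  have h2 := h.pos
  have h3 := h.eq
  rw [h.b_eq]
  unfold al ga
  have h4 : β + 2 ≠ 0 := by linarith
  field_simp
  nlinarith

lemma mu_prob (h : QB a β) : IsProbabilityMeasure (mu a β) := by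
  refine ⟨?_⟩
  have h1 := h.gt
  rw [mu_apply h MeasurableSet.univ, MM_Ico zero_le_one, MM_Ico (by linarith)]
  have h2 := norm_rel h
  rw [sub_zero, sub_zero, mul_one, h2, ENNReal.ofReal_one]

/-- Measure of the preimage in the full branches. -/
lemma MM_full (h : QB a β) {B : Set ℝ} (hB : MeasurableSet B) (k : ℕ) :
    MM (TT β 0 ⁻¹' B) 0 (k / β) = k * (β⁻¹ * MM B 0 1) := by
  have h0 := h.pos
  have hT : MeasurableSet (TT β 0 ⁻¹' B) := TT_measurable β 0 hB
  induction k with
  | zero =>
    simp [MM]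
  | succ k ih =>
    have h1 : (0 : ℝ) ≤ k / β := by positivity
    have h2 : (k : ℝ) / β ≤ ((k + 1 : ℕ) : ℝ) / β := by
      push_cast
      gcongr
      linarith
    rw [MM_add hT h1 h2, ih]
    have h3 := MM_branch h0 B k (w := 1) zero_le_one le_rfl
    push_cast
    rw [h3]
    ring

lemma mu_inv (h : QB a β) : MeasurePreserving (TT β 0) (mu a β) (mu a β) := by
  refine ⟨TT_measurable β 0, ?_⟩
  ext B hB
  have h0 := h.pos
  have hT : MeasurableSet (TT β 0 ⁻¹' B) := TT_measurable β 0 hB
  rw [Measure.map_apply (TT_measurable β 0) hB, mu_apply h hT, mu_apply h hB]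
  congr 1
  have hb := h.b_eq
  have e1 : MM (TT β 0 ⁻¹' B) 0 (β - a) = a * (β⁻¹ * MM B 0 1) := by
    rw [hb]; exact MM_full h hB a
  have e2 : MM (TT β 0 ⁻¹' B) 0 1 = a * (β⁻¹ * MM B 0 1) + β⁻¹ * MM B 0 (β - a) := by
    have h1 : (0 : ℝ) ≤ a / β := by positivity
    have h2 : (a : ℝ) / β ≤ 1 := by rw [div_le_one h0]; exact h.gt.le
    rw [MM_add hT h1 h2, MM_full h hB a]
    congr 1
    have h3 := MM_branch h0 B a (w := β - a) (by linarith [h.gt]) (by linarith [h.lt])
    rw [← h3]
    congr 1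
    field_simp
    ring
  rw [e1, e2]
  have h3 := h.eq
  unfold al ga
  have h4 : β + 2 ≠ 0 := by linarith
  have h5 : β ≠ 0 := h0.ne'
  set M := MM B 0 1
  set M' := MM B 0 (β - a)
  field_simp
  have : (a : ℝ) * M * (β + 1) = M * β ^ 2 := by rw [h3]; ring
  linear_combination this

lemma mu_null (h : QB a β) {B : Set ℝ} (hB : MeasurableSet B) (h0 : volume (B ∩ Ico 0 1) = 0) :
    mu a β B = 0 := by
  have h1 : volume (B ∩ Ico 0 (β - a)) = 0 := by
    refine measure_mono_null (inter_subset_inter_right _ (Ico_subset_Ico le_rfl ?_)) h0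
    linarith [h.lt]
  rw [mu, Measure.add_apply, Measure.smul_apply, Measure.smul_apply, Measure.restrict_apply hB,
    Measure.restrict_apply hB, h0, h1]
  simp

lemma mu_ergodic (h : QB a β) : Ergodic (TT β 0) (mu a β) := by
  refine ⟨mu_inv h, ⟨?_⟩⟩
  have hβ : 2 < β := by linarith [h.ar, h.gt]
  intro s hs hinv
  rcases zero_one hβ hs hinv with h1 | h1
  · rw [eventuallyConst_set']
    left
    rw [ae_eq_empty]
    exact mu_null h hs h1
  · rw [eventuallyConst_set']
    right
    rw [ae_eq_univ]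
    exact mu_null h hs.compl h1

/-- The dominating set. -/
def PSI (a : ℕ) (β : ℝ) : Set ℝ := Ico 0 (1 / β + 2 / β ^ 3) ∪ Ico (a / β) 1

lemma PSI_meas : MeasurableSet (PSI a β) := measurableSet_Ico.union measurableSet_Ico

/-- The bound on the frequency. -/
noncomputable def kap (a : ℕ) (β : ℝ) : ℝ := (a * (β + 1) + 2 + a ^ 2) / (a ^ 2 * (β + 2))

lemma kap_lt (h : QB a β) : kap a β < 2 / (a + 1) := by
  have h1 := h.ar
  have h2 := h.b_gt
  have h0 := h.pos
  unfold kap
  rw [div_lt_div_iff₀ (by positivity) (by linarith)]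
  nlinarith [mul_pos (show (0 : ℝ) < a by linarith) (show (0 : ℝ) < a - 1 by linarith)]

lemma mu_PSI (h : QB a β) : (mu a β (PSI a β)).toReal = kap a β := by
  have h0 := h.pos
  have h1 := h.ar
  have hlt := h.lt
  have hgt := h.gt
  have hbgt := h.b_gt
  have hb := h.b_eq
  have hsmall : 1 / β + 2 / β ^ 3 < β - a := by
    have e1 : 1 / β < 1 / 3 := by
      apply div_lt_div_of_pos_left one_pos (by norm_num); linarith
    have e2 : 2 / β ^ 3 < 2 / 3 ^ 3 := by
      apply div_lt_div_of_pos_left (by norm_num) (by norm_num)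
      have : (3 : ℝ) < β := by linarith
      gcongr
    linarith
  have hpos : 0 < 1 / β + 2 / β ^ 3 := by positivity
  have hMM1 : MM (PSI a β) 0 (β - a) = 1 / β + 2 / β ^ 3 := by
    have : PSI a β ∩ Ico 0 (β - a) = Ico 0 (1 / β + 2 / β ^ 3) := by
      ext z
      simp only [PSI, mem_inter_iff, mem_union, mem_Ico]
      rw [← hb]
      constructor
      · rintro ⟨h2 | h2, h3⟩
        · exact h2
        · exact absurd h3.2 (not_lt.2 h2.1)
      · intro h2
        exact ⟨Or.inl h2, h2.1, by linarith⟩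
    rw [MM, this, Real.volume_Ico, sub_zero, ENNReal.toReal_ofReal hpos.le]
  have hMM2 : MM (PSI a β) (β - a) 1 = 1 - (β - a) := by
    have : PSI a β ∩ Ico (β - a) 1 = Ico (β - a) 1 := by
      ext z
      simp only [PSI, mem_inter_iff, mem_union, mem_Ico]
      rw [← hb]
      constructor
      · rintro ⟨_, h3⟩
        exact h3
      · intro h2
        exact ⟨Or.inr h2, h2⟩
    rw [MM, this, Real.volume_Ico, ENNReal.toReal_ofReal (by linarith)]
  rw [mu_apply h PSI_meas, MM_add PSI_meas (show (0 : ℝ) ≤ β - a by linarith)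
    (show β - a ≤ 1 by linarith), hMM1, hMM2, ENNReal.toReal_ofReal]
  · have h3 := h.eq
    have ha0 : (a : ℝ) ≠ 0 := by linarith
    have h4 : β + 2 ≠ 0 := by linarith
    have h5 : β ≠ 0 := h0.ne'
    have hβ3 : β ^ 3 = a * β * (β + 1) := by
      have : β ^ 3 = β ^ 2 * β := by ring
      rw [this, h3]; ring
    have h6 : β + 1 ≠ 0 := by linarith
    have e1 : (1 : ℝ) / β + 2 / β ^ 3 = (a * (β + 1) + 2) / (a * β * (β + 1)) := by
      rw [hβ3]
      field_simp
    have e2 : 1 - (β - a) = a / β ^ 2 := by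
      rw [hb, h3]
      have : (a : ℝ) / β = β - a := hb.symm
      rw [this]
      field_simp
      nlinarith
    rw [e1, e2, h3]
    unfold al ga kap
    field_simp
    have : β ^ 2 = a * (β + 1) := h3
    ring_nf
    have h7 : β ^ 3 = a * β * (β + 1) := hβ3
    nlinarith
  · have := al_pos h
    have := ga_pos h
    have : 0 ≤ 1 - (β - a) := by linarith
    positivity

end Quad

end Q92.BX
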