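import Pool.Agent.Q92.BX.Quad

/-!
Every expansion of almost every point has few digits `0` and `a`.
-/

open Set Filter Topology MeasureTheory
open scoped ENNReal

namespace Q92.BX

variable {a : ℕ} {β : ℝ}

/-- Value of the greedy map when the floor is known. -/
lemma TT_zero_of_floor {y : ℝ} {g : ℤ} (hg : ⌊β * y⌋ = g) : TT β 0 y = β * y - g := by
  rw [TT, add_zero, Int.fract, hg]

/-- The key step: one step of the comparison automaton. -/
lemma automaton (h : QB a β) {y z : ℝ} (hy : y ∈ Ico (0 : ℝ) 1) {e : Fin (a + 1)}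
    (hz : β * z - ((e : ℕ) : ℝ) ∈ II a β)
    (hs : z - y = 0 ∨ z - y = 1 ∨ z - y = β - a) :
    (z - y = 0 ∧ ((e : ℕ) : ℤ) = ⌊β * y⌋ ∧ (β * z - ((e : ℕ) : ℝ)) - TT β 0 y = 0) ∨
    (z - y = 0 ∧ ((e : ℕ) : ℤ) = ⌊β * y⌋ - 1 ∧ (β * z - ((e : ℕ) : ℝ)) - TT β 0 y = 1) ∨
    (z - y = 1 ∧ (e : ℕ) = a ∧ ⌊β * y⌋ = 0 ∧ (β * z - ((e : ℕ) : ℝ)) - TT β 0 y = β - a) ∨
    (z - y = β - a ∧ (e : ℕ) = a ∧ ⌊β * y⌋ = 0 ∧ (β * z - ((e : ℕ) : ℝ)) - TT β 0 y = 0) ∨
    (z - y = β - a ∧ (⌊β * y⌋ = 0 ∨ ⌊β * y⌋ = 1) ∧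
      (β * z - ((e : ℕ) : ℝ)) - TT β 0 y = 1) := by
  have h0 := h.pos
  have hgt := h.gt
  have hlt := h.lt
  have har := h.ar
  have hlam := h.lam_lt
  have hlam2 := h.lam_lt_two
  set g : ℤ := ⌊β * y⌋ with hg
  have hT : TT β 0 y = β * y - g := TT_zero_of_floor hg.symm
  have hT0 := TT_nonneg β 0 y
  have hT1 := TT_lt_one β 0 y
  have he : ((e : ℕ) : ℤ) ≤ a := by exact_mod_cast Nat.lt_succ_iff.1 e.2
  have he0 : (0 : ℤ) ≤ ((e : ℕ) : ℤ) := by positivity
  have hg0 : 0 ≤ g := Int.floor_nonneg.2 (mul_nonneg h0.le hy.1)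
  obtain ⟨hz1, hz2⟩ := hz
  have hcast : ∀ k : ℤ, ((e : ℕ) : ℤ) - g = k → ((e : ℕ) : ℝ) - (g : ℝ) = k := by
    intro k hk
    have : (((((e : ℕ) : ℤ) - g : ℤ)) : ℝ) = k := by rw [hk]
    push_cast at this
    exact this
  have hD : (β * z - ((e : ℕ) : ℝ)) - TT β 0 y = β * (z - y) - (((e : ℕ) : ℝ) - g) := by
    rw [hT]; ring
  have hD1 : -1 < (β * z - ((e : ℕ) : ℝ)) - TT β 0 y := by linarith
  have hD2 : (β * z - ((e : ℕ) : ℝ)) - TT β 0 y ≤ a / (β - 1) := by linarith
  rw [hD] at hD1 hD2 ⊢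
  rcases hs with hs | hs | hs
  · rw [hs, mul_zero, zero_sub] at hD1 hD2 ⊢
    have h1 : (((e : ℕ) : ℤ) - g : ℤ) < 1 := by
      have : ((((e : ℕ) : ℤ) - g : ℤ) : ℝ) < 1 := by push_cast; linarith
      exact_mod_cast this
    have h2 : -2 < (((e : ℕ) : ℤ) - g : ℤ) := by
      have : (-2 : ℝ) < ((((e : ℕ) : ℤ) - g : ℤ) : ℝ) := by push_cast; linarith
      exact_mod_cast this
    have h3 : ((e : ℕ) : ℤ) - g = 0 ∨ ((e : ℕ) : ℤ) - g = -1 := by omega
    rcases h3 with h3 | h3
    · left
      have := hcast 0 h3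
      refine ⟨rfl, by omega, ?_⟩
      rw [this]; simp
    · right; left
      have := hcast (-1) h3
      refine ⟨rfl, by omega, ?_⟩
      rw [this]; simp
  · rw [hs, mul_one] at hD1 hD2 ⊢
    have h1 : (a : ℤ) - 1 < (((e : ℕ) : ℤ) - g : ℤ) := by
      have : (((a : ℤ) - 1 : ℤ) : ℝ) < ((((e : ℕ) : ℤ) - g : ℤ) : ℝ) := by push_cast; linarith
      exact_mod_cast this
    have h2 : ((e : ℕ) : ℤ) = a ∧ g = 0 := by constructor <;> omega
    have := hcast a (by omega)
    right; right; left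
    refine ⟨rfl, by omega, h2.2, ?_⟩
    rw [this]; simp
  · rw [hs] at hD1 hD2 ⊢
    have hββ : β * (β - a) = a := by
      have := h.eq
      nlinarith
    rw [hββ] at hD1 hD2 ⊢
    have h1 : (a : ℤ) - 2 < (((e : ℕ) : ℤ) - g : ℤ) := by
      have : (((a : ℤ) - 2 : ℤ) : ℝ) < ((((e : ℕ) : ℤ) - g : ℤ) : ℝ) := by push_cast; linarith
      exact_mod_cast this
    have h3 : ((e : ℕ) : ℤ) - g = a ∨ ((e : ℕ) : ℤ) - g = a - 1 := by omega
    rcases h3 with h3 | h3
    · right; right; right; left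
      have := hcast a h3
      refine ⟨rfl, by omega, by omega, ?_⟩
      rw [this]; simp
    · right; right; right; right
      have := hcast (a - 1) h3
      refine ⟨rfl, by omega, ?_⟩
      rw [this]; push_cast; ring

/-- The comparison: the digit count is dominated by the greedy orbit. -/
lemma dominated (h : QB a β) {x : ℝ} (hx : x ∈ Ico (0 : ℝ) 1) {s : ℕ → Fin (a + 1)}
    (hs : ∀ n, X β x s n ∈ II a β) (n : ℕ) (hn : (s n : ℕ) = 0 ∨ (s n : ℕ) = a) :
    (TT β 0)^[n] x ∈ PSI a β := by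
  have h0 := h.pos
  have hgt := h.gt
  have har := h.ar
  set y : ℕ → ℝ := fun n => (TT β 0)^[n] x with hy
  have hyI : ∀ n, y n ∈ Ico (0 : ℝ) 1 := by
    intro n
    cases n with
    | zero => exact hx
    | succ n =>
      simp only [hy]
      rw [Function.iterate_succ_apply']
      exact ⟨TT_nonneg _ _ _, TT_lt_one _ _ _⟩
  have hyS : ∀ n, y (n + 1) = TT β 0 (y n) := fun n => Function.iterate_succ_apply' _ _ _
  have hstate : ∀ n, X β x s n - y n = 0 ∨ X β x s n - y n = 1 ∨ X β x s n - y n = β - a := by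
    intro n
    induction n with
    | zero => left; simp [hy]
    | succ n ih =>
      have hz := hs (n + 1)
      rw [X_succ] at hz ⊢
      rw [hyS]
      rcases automaton h (hyI n) hz ih with h1 | h1 | h1 | h1 | h1
      · left; exact h1.2.2
      · right; left; exact h1.2.2
      · right; right; exact h1.2.2.2
      · left; exact h1.2.2.2
      · right; left; exact h1.2.2
  have haut : ∀ n, _ := fun n => automaton h (hyI n) (by have := hs (n + 1); rwa [X_succ] at this)
    (hstate n)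
  -- membership criteria
  have c0 : ∀ n, ⌊β * y n⌋ = 0 → y n ∈ PSI a β := by
    intro n hg
    left
    rw [Int.floor_eq_iff] at hg
    refine ⟨(hyI n).1, ?_⟩
    have h1 : β * y n < 1 := by
      have := hg.2
      push_cast at this
      linarith
    have h2 : y n < 1 / β := by rw [lt_div_iff₀ h0]; linarith
    have h3 : 0 < 2 / β ^ 3 := by positivity
    linarith
  have ca' : ∀ n, ⌊β * y n⌋ = a → y n ∈ PSI a β := by
    intro n hg
    right
    rw [Int.floor_eq_iff] at hg
    refine ⟨?_, (hyI n).2⟩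
    rw [div_le_iff₀ h0]
    have := hg.1
    push_cast at this
    linarith
  have c1 : ∀ n, ⌊β * y n⌋ = 1 → X β x s (n + 1) - y (n + 1) = 1 → y n ∈ PSI a β := by
    intro n hg hst
    left
    refine ⟨(hyI n).1, ?_⟩
    -- the next greedy digit is zero
    have e1 : ⌊β * y (n + 1)⌋ = 0 ∧ X β x s (n + 2) - y (n + 2) = β - a := by
      have h1 := haut (n + 1)
      rcases h1 with h1 | h1 | h1 | h1 | h1
      · linarith [h1.1]
      · linarith [h1.1]
      · refine ⟨h1.2.2.1, ?_⟩
        rw [X_succ, hyS]; exact h1.2.2.2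
      · exfalso
        have := h1.1
        have h2 := h.lt
        linarith
      · exfalso
        have := h1.1
        have h2 := h.lt
        linarith
    have e2 : ⌊β * y (n + 2)⌋ = 0 ∨ ⌊β * y (n + 2)⌋ = 1 := by
      have h1 := haut (n + 2)
      rcases h1 with h1 | h1 | h1 | h1 | h1
      · linarith [h1.1]
      · linarith [h1.1]
      · exfalso
        have := h1.1
        have h2 := h.lt
        linarith
      · left; exact h1.2.2.1
      · exact h1.2.1
    have e3 : β * y (n + 2) < 2 := by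
      have := Int.lt_floor_add_one (β * y (n + 2))
      rcases e2 with e2 | e2
      · rw [e2] at this; push_cast at this; linarith
      · rw [e2] at this; push_cast at this; linarith
    have e4 : y (n + 2) = β * y (n + 1) := by
      rw [hyS (n + 1), TT_zero_of_floor e1.1]; simp
    have e5 : y (n + 1) = β * y n - 1 := by
      rw [hyS n, TT_zero_of_floor hg]; simp
    rw [e4, e5] at e3
    have e6 : y n * β ^ 3 < β ^ 2 + 2 := by nlinarith
    have e7 : 1 / β + 2 / β ^ 3 = (β ^ 2 + 2) / β ^ 3 := by field_simp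
    rw [e7, lt_div_iff₀ (by positivity)]
    exact e6
  show y n ∈ PSI a β
  rcases haut n with h1 | h1 | h1 | h1 | h1
  · rcases hn with hn | hn
    · exact c0 n (by rw [← h1.2.1, hn]; rfl)
    · exact ca' n (by rw [← h1.2.1, hn])
  · rcases hn with hn | hn
    · refine c1 n ?_ ?_
      · have := h1.2.1
        rw [hn] at this
        push_cast at this
        linarith
      · rw [X_succ, hyS]; exact h1.2.2
    · exfalso
      have h2 := h1.2.1
      rw [hn] at h2
      have h3 : ⌊β * y n⌋ = a + 1 := by linarith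
      have h4 := Int.floor_le (β * y n)
      rw [h3] at h4
      push_cast at h4
      have h5 := (hyI n).2
      have h6 := h.lt
      nlinarith
  · exact c0 n h1.2.2.1
  · exact c0 n h1.2.2.1
  · rcases h1.2.1 with h2 | h2
    · exact c0 n h2
    · refine c1 n h2 ?_
      rw [X_succ, hyS]; exact h1.2.2

/-- Indicator of the dominating set. -/
noncomputable def psiF (a : ℕ) (β : ℝ) (z : ℝ) : ℝ := (PSI a β).indicator (fun _ => 1) z

/-- The typical points. -/
def Typ (a : ℕ) (β : ℝ) : Set ℝ := {x | Tendsto (fun n : ℕ => (n : ℝ)⁻¹ *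
  ∑ j ∈ Finset.range n, psiF a β ((TT β 0)^[j] x)) atTop (𝓝 (kap a β))}

lemma typ_ae (h : QB a β) : volume {x | x ∈ Ico (0 : ℝ) 1 ∧ x ∉ Typ a β} = 0 := by
  have := mu_prob h
  have hm : Measurable (psiF a β) := measurable_const.indicator PSI_meas
  have hb := Pool.Agent.H165R3.birkhoff (mu_ergodic h) (psiF a β) hm ⟨1, fun x => by
    unfold psiF indicator
    split_ifs <;> simp⟩
  have hint : ∫ x, psiF a β x ∂(mu a β) = kap a β := by
    unfold psiF
    rw [integral_indicator PSI_meas]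
    simp only [integral_const, smul_eq_mul, mul_one]
    rw [measureReal_restrict_apply_univ, Measure.real, mu_PSI h]
  rw [hint] at hb
  have hTm : MeasurableSet (Typ a β) := by
    refine measurableSet_tendsto _ fun n => ?_
    refine measurable_const.mul (Finset.measurable_sum _ fun j _ => ?_)
    exact hm.comp ((TT_measurable β 0).iterate j)
  have h1 : mu a β (Typ a β)ᶜ = 0 := hb
  have h2 : ENNReal.ofReal (al β) * volume.restrict (Ico 0 1) (Typ a β)ᶜ = 0 := by
    rw [mu, Measure.add_apply, Measure.smul_apply, smul_eq_mul] at h1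
    exact (add_eq_zero.1 h1).1
  have h3 : volume.restrict (Ico (0 : ℝ) 1) (Typ a β)ᶜ = 0 := by
    rcases mul_eq_zero.1 h2 with h4 | h4
    · exfalso
      have := al_pos h
      rw [ENNReal.ofReal_eq_zero] at h4
      linarith
    · exact h4
  rw [Measure.restrict_apply hTm.compl] at h3
  refine measure_mono_null ?_ h3
  rintro x ⟨hx, hx'⟩
  exact ⟨hx', hx⟩

/-- Points having an expansion with frequencies of `0` and `a` adding up to more than `κ`. -/
def Rich (a : ℕ) (β : ℝ) : Set ℝ :=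
  {x | ∃ s : ℕ → Fin (a + 1), (∀ n, X β x s n ∈ II a β) ∧ ∃ f f' : ℝ,
    Tendsto (fun n : ℕ => (cnt 0 s n : ℝ) / n) atTop (𝓝 f) ∧
    Tendsto (fun n : ℕ => (cnt (Fin.last a) s n : ℝ) / n) atTop (𝓝 f') ∧ kap a β < f + f'}

lemma rich_not_typ (h : QB a β) {x : ℝ} (hx : x ∈ Ico (0 : ℝ) 1) (hR : x ∈ Rich a β) :
    x ∉ Typ a β := by
  intro hT
  obtain ⟨s, hs, f, f', hf, hf', hlt⟩ := hR
  have hle : ∀ n : ℕ, (cnt 0 s n : ℝ) / n + (cnt (Fin.last a) s n : ℝ) / n ≤
      (n : ℝ)⁻¹ * ∑ j ∈ Finset.range n, psiF a β ((TT β 0)^[j] x) := by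
    intro n
    rw [← add_div, div_eq_inv_mul]
    refine mul_le_mul_of_nonneg_left ?_ (by positivity)
    have hc : ∀ (k : Fin (a + 1)) (n : ℕ),
        (cnt k s n : ℝ) = ∑ j ∈ Finset.range n, if s j = k then (1 : ℝ) else 0 := by
      intro k n
      induction n with
      | zero => simp [cnt]
      | succ n ih =>
        rw [cnt_succ, Finset.sum_range_succ, ← ih]
        push_cast
        split_ifs <;> simp
    rw [hc, hc, ← Finset.sum_add_distrib]
    refine Finset.sum_le_sum fun j _ => ?_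
    have hdom := dominated h hx hs j
    have ha : 3 ≤ a := h.ha
    have hpos : 0 ≤ psiF a β ((TT β 0)^[j] x) := by
      unfold psiF indicator; split_ifs <;> simp
    by_cases h1 : s j = 0
    · have h2 : s j ≠ Fin.last a := by
        rw [h1]
        intro h3
        have := congrArg Fin.val h3
        simp at this
        omega
      rw [if_pos h1, if_neg h2, add_zero]
      have h3 := hdom (Or.inl (by rw [h1]; rfl))
      unfold psiF
      rw [indicator_of_mem h3]
    · rw [if_neg h1, zero_add]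
      by_cases h2 : s j = Fin.last a
      · rw [if_pos h2]
        have h3 := hdom (Or.inr (by rw [h2]; rfl))
        unfold psiF
        rw [indicator_of_mem h3]
      · rw [if_neg h2]; exact hpos
  have := le_of_tendsto_of_tendsto' (hf.add hf') hT hle
  linarith

lemma cnt_rev (k : Fin (a + 1)) (s : ℕ → Fin (a + 1)) (n : ℕ) :
    cnt k (fun i => Fin.rev (s i)) n = cnt (Fin.rev k) s n := by
  unfold cnt
  congr 1
  refine Finset.filter_congr fun i _ => ?_
  constructor
  · intro h; rw [← h, Fin.rev_rev]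
  · intro h
    show Fin.rev (s i) = k
    rw [h, Fin.rev_rev]

lemma X_rev (hβ : 1 < β) (x : ℝ) (s : ℕ → Fin (a + 1)) (n : ℕ) :
    X β (a / (β - 1) - x) (fun i => Fin.rev (s i)) n = a / (β - 1) - X β x s n := by
  have : β - 1 ≠ 0 := by linarith
  induction n with
  | zero => rfl
  | succ n ih =>
    rw [X_succ, X_succ, ih]
    have h1 : (((Fin.rev (s n) : Fin (a + 1)) : ℕ) : ℝ) = a - ((s n : ℕ) : ℝ) := by
      rw [Fin.val_rev]
      have h2 := Nat.lt_succ_iff.1 (s n).2
      have h3 : a + 1 - ((s n : ℕ) + 1) = a - (s n : ℕ) := by omega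
      rw [h3, Nat.cast_sub h2]
    rw [h1]
    field_simp
    ring

lemma rich_rev (hβ : 1 < β) {x : ℝ} (h : x ∈ Rich a β) : (a : ℝ) / (β - 1) - x ∈ Rich a β := by
  obtain ⟨s, hs, f, f', hf, hf', hlt⟩ := h
  refine ⟨fun i => Fin.rev (s i), ?_, f', f, ?_, ?_, by linarith⟩
  · intro n
    rw [X_rev hβ]
    have := hs n
    exact ⟨by linarith [this.2], by linarith [this.1]⟩
  · simp only [cnt_rev, Fin.rev_zero]
    exact hf'
  · simp only [cnt_rev, Fin.rev_last]
    exact hf

/-- Almost no point has a rich expansion. -/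
theorem rich_null (h : QB a β) : volume (Rich a β ∩ II a β) = 0 := by
  have hgt := h.gt
  have har := h.ar
  have hβ : 1 < β := by linarith
  have h0 := typ_ae h
  set N : Set ℝ := {x | x ∈ Ico (0 : ℝ) 1 ∧ x ∉ Typ a β} with hN
  have hsub : Rich a β ∩ II a β ⊆ N ∪ (fun x => (a : ℝ) / (β - 1) - x) ⁻¹' N := by
    rintro x ⟨hR, hx1, hx2⟩
    by_cases hx : x < 1
    · left
      exact ⟨⟨hx1, hx⟩, rich_not_typ h ⟨hx1, hx⟩ hR⟩
    · right
      have hlam2 := h.lam_lt_two
      have hx' : (a : ℝ) / (β - 1) - x ∈ Ico (0 : ℝ) 1 := ⟨by linarith, by linarith⟩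
      exact ⟨hx', rich_not_typ h hx' (rich_rev hβ hR)⟩
  refine measure_mono_null hsub (measure_union_null h0 ?_)
  exact (MeasureTheory.Measure.measurePreserving_sub_left volume
    ((a : ℝ) / (β - 1))).quasiMeasurePreserving.preimage_null h0

end Q92.BX
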