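import Mathlib

/-!
The map `z ↦ fract (β z + γ)` for `β > 2`: bounded densities and the zero-one law.
-/

open Set Filter Topology MeasureTheory
open scoped ENNReal

namespace Q92.BX

/-- The map `z ↦ fract (β z + γ)`. -/
noncomputable def TT (β γ : ℝ) (z : ℝ) : ℝ := Int.fract (β * z + γ)

lemma TT_measurable (β γ : ℝ) : Measurable (TT β γ) := by
  unfold TT
  exact measurable_fract.comp ((measurable_const.mul measurable_id).add measurable_const)

lemma TT_nonneg (β γ z : ℝ) : 0 ≤ TT β γ z := Int.fract_nonneg _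

lemma TT_lt_one (β γ z : ℝ) : TT β γ z < 1 := Int.fract_lt_one _

/-- Measure of a set in an interval. -/
noncomputable def MM (B : Set ℝ) (u v : ℝ) : ℝ := (volume (B ∩ Ico u v)).toReal

lemma MM_nonneg (B : Set ℝ) (u v : ℝ) : 0 ≤ MM B u v := ENNReal.toReal_nonneg

lemma MM_ne_top (B : Set ℝ) (u v : ℝ) : volume (B ∩ Ico u v) ≠ ⊤ := by
  refine ((measure_mono inter_subset_right).trans_lt ?_).ne
  rw [Real.volume_Ico]; exact ENNReal.ofReal_lt_top

lemma MM_mono (B : Set ℝ) {u v u' v' : ℝ} (hu : u' ≤ u) (hv : v ≤ v') : MM B u v ≤ MM B u' v' := by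
  refine ENNReal.toReal_mono (MM_ne_top B u' v') (measure_mono ?_)
  exact inter_subset_inter_right _ (Ico_subset_Ico hu hv)

/-- Left endpoint of the image of a piece. -/
noncomputable def lo (p : ℝ) (i : ℕ) : ℝ := max (p - (⌊p⌋ + i : ℤ)) 0

/-- Right endpoint of the image of a piece. -/
noncomputable def hi (p q : ℝ) (i : ℕ) : ℝ := min (q - (⌊p⌋ + i : ℤ)) 1

/-- The splitting lemma. -/
lemma split_le {β γ : ℝ} (hβ : 0 < β) (B : Set ℝ) {u v : ℝ} (_huv : u ≤ v) {N : ℕ}
    (hN : ⌊β * v + γ⌋ = ⌊β * u + γ⌋ + N) :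
    MM (TT β γ ⁻¹' B) u v ≤ ∑ i ∈ Finset.range (N + 1),
      β⁻¹ * MM B (lo (β * u + γ) i) (hi (β * u + γ) (β * v + γ) i) := by
  set p := β * u + γ with hp
  set q := β * v + γ with hq
  have hcov : TT β γ ⁻¹' B ∩ Ico u v ⊆ ⋃ i ∈ Finset.range (N + 1),
      (fun z => β * z) ⁻¹' ((fun z => z + (γ - (⌊p⌋ + i : ℤ))) ⁻¹' (B ∩ Ico (lo p i) (hi p q i))) := by
    rintro z ⟨hzB, hz1, hz2⟩
    have h1 : p ≤ β * z + γ := by rw [hp]; nlinarith
    have h2 : β * z + γ < q := by rw [hq]; nlinarith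
    have h3 : ⌊p⌋ ≤ ⌊β * z + γ⌋ := Int.floor_le_floor h1
    have h4 : ⌊β * z + γ⌋ ≤ ⌊q⌋ := Int.floor_le_floor h2.le
    rw [mem_iUnion₂]
    refine ⟨(⌊β * z + γ⌋ - ⌊p⌋).toNat, Finset.mem_range.2 (by omega), ?_⟩
    have h5 : (⌊p⌋ + ((⌊β * z + γ⌋ - ⌊p⌋).toNat : ℤ) : ℤ) = ⌊β * z + γ⌋ := by omega
    simp only [mem_preimage]
    have h6 : β * z + (γ - ((⌊p⌋ + ((⌊β * z + γ⌋ - ⌊p⌋).toNat : ℤ) : ℤ) : ℝ)) = TT β γ z := by
      rw [h5, TT, Int.fract]; ring
    rw [h6]
    refine ⟨hzB, ?_, ?_⟩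
    · rw [lo, h5]
      refine max_le ?_ (TT_nonneg _ _ _)
      rw [TT, Int.fract]; linarith
    · rw [hi, h5]
      refine lt_min ?_ (TT_lt_one _ _ _)
      rw [TT, Int.fract]; linarith
  have hpiece : ∀ i : ℕ, volume ((fun z => β * z) ⁻¹' ((fun z => z + (γ - (⌊p⌋ + i : ℤ))) ⁻¹'
      (B ∩ Ico (lo p i) (hi p q i)))) =
        ENNReal.ofReal β⁻¹ * volume (B ∩ Ico (lo p i) (hi p q i)) := by
    intro i
    rw [Real.volume_preimage_mul_left hβ.ne', measure_preimage_add_right,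
      abs_of_pos (by positivity)]
  have h1 : volume (TT β γ ⁻¹' B ∩ Ico u v) ≤ ∑ i ∈ Finset.range (N + 1),
      ENNReal.ofReal β⁻¹ * volume (B ∩ Ico (lo p i) (hi p q i)) := by
    refine (measure_mono hcov).trans ((measure_biUnion_finset_le _ _).trans ?_)
    exact Finset.sum_le_sum fun i _ => (hpiece i).le
  unfold MM
  have hfin : ∀ i ∈ Finset.range (N + 1),
      ENNReal.ofReal β⁻¹ * volume (B ∩ Ico (lo p i) (hi p q i)) ≠ ⊤ := fun i _ =>
    ENNReal.mul_ne_top ENNReal.ofReal_ne_top (MM_ne_top _ _ _)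
  have h2 := ENNReal.toReal_mono (ENNReal.sum_ne_top.2 hfin) h1
  refine h2.trans ?_
  rw [ENNReal.toReal_sum hfin]
  refine (Finset.sum_le_sum fun i _ => ?_)
  rw [ENNReal.toReal_mul, ENNReal.toReal_ofReal (by positivity)]

lemma lo_nonneg (p : ℝ) (i : ℕ) : 0 ≤ lo p i := le_max_right _ _

lemma hi_le_one (p q : ℝ) (i : ℕ) : hi p q i ≤ 1 := min_le_right _ _

lemma lo_le_hi {p q : ℝ} (hpq : p ≤ q) {N : ℕ} (hN : ⌊q⌋ = ⌊p⌋ + N) {i : ℕ} (hi' : i ≤ N) :
    lo p i ≤ hi p q i := by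
  have h1 : ((⌊p⌋ + i : ℤ) : ℝ) ≤ q := by
    refine le_trans ?_ (Int.floor_le q)
    exact_mod_cast (by omega : (⌊p⌋ + i : ℤ) ≤ ⌊q⌋)
  have h2 : p < ((⌊p⌋ + i : ℤ) : ℝ) + 1 := by
    refine (Int.lt_floor_add_one p).trans_le ?_
    push_cast
    have : (0 : ℝ) ≤ i := Nat.cast_nonneg _
    linarith
  unfold lo hi
  refine max_le (le_min ?_ ?_) (le_min ?_ ?_) <;> linarith

/-- Total length of the images. -/
lemma sum_len {p q : ℝ} (hpq : p ≤ q) {N : ℕ} (hN : ⌊q⌋ = ⌊p⌋ + N) :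
    ∑ i ∈ Finset.range (N + 1), (hi p q i - lo p i) = q - p := by
  set F : ℕ → ℝ := fun i => max p (min q ((⌊p⌋ : ℝ) + i)) with hF
  have h1 : ∀ i ∈ Finset.range (N + 1), hi p q i - lo p i = F (i + 1) - F i := by
    intro i hi'
    have hiN : i ≤ N := Nat.lt_succ_iff.1 (Finset.mem_range.1 hi')
    have h1 : (⌊p⌋ : ℝ) + i ≤ q := by
      refine le_trans ?_ (Int.floor_le q)
      exact_mod_cast (by omega : (⌊p⌋ + i : ℤ) ≤ ⌊q⌋)
    have h2 : p < (⌊p⌋ : ℝ) + i + 1 := by
      refine (Int.lt_floor_add_one p).trans_le ?_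
      have : (0 : ℝ) ≤ i := Nat.cast_nonneg _
      linarith
    have e1 : F (i + 1) = min q ((⌊p⌋ : ℝ) + i + 1) := by
      simp only [hF]
      push_cast
      rw [← add_assoc]
      exact max_eq_right (le_min hpq h2.le)
    have e2 : F i = max p ((⌊p⌋ : ℝ) + i) := by
      simp only [hF]
      rw [min_eq_right h1]
    have e3 : hi p q i = min q ((⌊p⌋ : ℝ) + i + 1) - ((⌊p⌋ : ℝ) + i) := by
      unfold hi
      push_cast
      rw [← min_sub_sub_right]
      congr 1
      ring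
    have e4 : lo p i = max p ((⌊p⌋ : ℝ) + i) - ((⌊p⌋ : ℝ) + i) := by
      unfold lo
      push_cast
      rw [← max_sub_sub_right]
      congr 1
      ring
    rw [e1, e2, e3, e4]
    ring
  rw [Finset.sum_congr rfl h1, Finset.sum_range_sub]
  have e5 : F (N + 1) = q := by
    simp only [hF]
    have : q ≤ (⌊p⌋ : ℝ) + ((N + 1 : ℕ) : ℝ) := by
      have := (Int.lt_floor_add_one q).le
      rw [hN] at this
      push_cast at this ⊢
      linarith
    rw [min_eq_left this, max_eq_right hpq]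
  have e6 : F 0 = p := by
    simp only [hF]
    refine max_eq_left ((min_le_right _ _).trans ?_)
    simpa using Int.floor_le p
  rw [e5, e6]

lemma card_bound {p q : ℝ} {N : ℕ} (hN : ⌊q⌋ = ⌊p⌋ + N) : (N : ℝ) + 1 ≤ (q - p) + 2 := by
  have h1 := Int.floor_le q
  have h2 := Int.lt_floor_add_one p
  rw [hN] at h1
  push_cast at h1
  linarith

lemma exists_N {p q : ℝ} (hpq : p ≤ q) : ∃ N : ℕ, ⌊q⌋ = ⌊p⌋ + N := by
  have : ⌊p⌋ ≤ ⌊q⌋ := Int.floor_le_floor hpq
  exact ⟨(⌊q⌋ - ⌊p⌋).toNat, by omega⟩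

/-- Coefficient sequence. -/
noncomputable def ca (β : ℝ) (n : ℕ) : ℝ := ∑ k ∈ Finset.range n, (2 / β) ^ k

/-- Growth bound. -/
lemma growth {β γ : ℝ} (hβ : 2 < β) (A : Set ℝ) (n : ℕ) {u v : ℝ} (hu : 0 ≤ u) (huv : u ≤ v)
    (hv : v ≤ 1) :
    MM ((TT β γ)^[n] ⁻¹' A) u v ≤ (ca β n * (v - u) + (2 / β) ^ n) * MM A 0 1 := by
  have hβ0 : 0 < β := by linarith
  induction n generalizing u v with
  | zero =>
    simp only [ca, Finset.range_zero, Finset.sum_empty, zero_mul, pow_zero, zero_add, one_mul,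
      Function.iterate_zero, preimage_id_eq, id]
    exact MM_mono A hu hv
  | succ n ih =>
    have hpq : β * u + γ ≤ β * v + γ := by nlinarith
    obtain ⟨N, hN⟩ := exists_N hpq
    rw [Function.iterate_succ, preimage_comp]
    refine (split_le hβ0 _ huv hN).trans ?_
    set M := MM A 0 1 with hM
    have hM0 : 0 ≤ M := MM_nonneg _ _ _
    have h1 : ∀ i ∈ Finset.range (N + 1),
        β⁻¹ * MM ((TT β γ)^[n] ⁻¹' A) (lo (β * u + γ) i) (hi (β * u + γ) (β * v + γ) i) ≤
        β⁻¹ * M * ca β n * (hi (β * u + γ) (β * v + γ) i - lo (β * u + γ) i) +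
          β⁻¹ * M * (2 / β) ^ n := by
      intro i hi'
      have := ih (lo_nonneg (β * u + γ) i)
        (lo_le_hi hpq hN (Nat.lt_succ_iff.1 (Finset.mem_range.1 hi'))) (hi_le_one _ _ _)
      have h2 := mul_le_mul_of_nonneg_left this (inv_nonneg.2 hβ0.le)
      refine h2.trans (le_of_eq ?_)
      ring
    refine (Finset.sum_le_sum h1).trans ?_
    rw [Finset.sum_add_distrib, ← Finset.mul_sum, sum_len hpq hN, Finset.sum_const,
      Finset.card_range, nsmul_eq_mul]
    have h3 := card_bound hN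
    have h4 : ((N + 1 : ℕ) : ℝ) * (β⁻¹ * M * (2 / β) ^ n) ≤
        (β * v + γ - (β * u + γ) + 2) * (β⁻¹ * M * (2 / β) ^ n) := by
      refine mul_le_mul_of_nonneg_right ?_ (by positivity)
      push_cast
      exact h3
    have h5 : ca β (n + 1) = ca β n + (2 / β) ^ n := by
      unfold ca; rw [Finset.sum_range_succ]
    rw [h5, pow_succ]
    refine (add_le_add le_rfl h4).trans (le_of_eq ?_)
    field_simp
    ring

lemma ca_bound {β : ℝ} (hβ : 2 < β) (n : ℕ) : ca β n ≤ (1 - 2 / β)⁻¹ := by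
  have hβ0 : 0 < β := by linarith
  have h1 : 2 / β < 1 := by rw [div_lt_one hβ0]; exact hβ
  unfold ca
  have h2 := (summable_geometric_of_lt_one (by positivity) h1).sum_le_tsum (Finset.range n)
    (fun i _ => by positivity)
  rwa [tsum_geometric_of_lt_one (by positivity) h1] at h2

/-- The constant in the density bound. -/
noncomputable def CC (β : ℝ) : ℝ := (1 - 2 / β)⁻¹ + 1

lemma CC_pos {β : ℝ} (hβ : 2 < β) : 0 < CC β := by
  have hβ0 : 0 < β := by linarith
  have h1 : 2 / β < 1 := by rw [div_lt_one hβ0]; exact hβ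
  unfold CC
  have : 0 < (1 - 2 / β)⁻¹ := inv_pos.2 (by linarith)
  linarith

lemma growth' {β γ : ℝ} (hβ : 2 < β) (A : Set ℝ) (n : ℕ) :
    MM ((TT β γ)^[n] ⁻¹' A) 0 1 ≤ CC β * MM A 0 1 := by
  have hβ0 : 0 < β := by linarith
  have h1 : 2 / β < 1 := by rw [div_lt_one hβ0]; exact hβ
  refine (growth hβ A n le_rfl zero_le_one le_rfl).trans ?_
  refine mul_le_mul_of_nonneg_right ?_ (MM_nonneg _ _ _)
  have h2 := ca_bound hβ n
  have h3 : (2 / β) ^ n ≤ 1 := pow_le_one₀ (by positivity) h1.le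
  unfold CC
  linarith

/-- Invariant sets have constant density. -/
lemma density_le {β γ : ℝ} (hβ : 2 < β) {B : Set ℝ} (hB : TT β γ ⁻¹' B = B) (n : ℕ) {u v : ℝ}
    (hu : 0 ≤ u) (huv : u ≤ v) (hv : v ≤ 1) :
    MM B u v ≤ MM B 0 1 * (v - u) + (2 / β) ^ n := by
  have hβ0 : 0 < β := by linarith
  induction n generalizing u v with
  | zero =>
    have h1 : MM B u v ≤ v - u := by
      unfold MM
      have := ENNReal.toReal_mono (by rw [Real.volume_Ico]; exact ENNReal.ofReal_ne_top)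
        (measure_mono (μ := volume) (inter_subset_right : B ∩ Ico u v ⊆ Ico u v))
      rw [Real.volume_Ico, ENNReal.toReal_ofReal (by linarith)] at this
      exact this
    have h2 := MM_nonneg B 0 1
    have h3 : 0 ≤ MM B 0 1 * (v - u) := mul_nonneg h2 (by linarith)
    rw [pow_zero]
    linarith
  | succ n ih =>
    have hpq : β * u + γ ≤ β * v + γ := by nlinarith
    obtain ⟨N, hN⟩ := exists_N hpq
    have h0 := split_le hβ0 B huv hN
    rw [hB] at h0
    refine h0.trans ?_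
    set M := MM B 0 1 with hM
    have hM0 : 0 ≤ M := MM_nonneg _ _ _
    set p := β * u + γ with hp
    set q := β * v + γ with hq
    have h1 : ∀ i ∈ Finset.range (N + 1), β⁻¹ * MM B (lo p i) (hi p q i) ≤
        β⁻¹ * M * (hi p q i - lo p i) +
          ((if i = 0 then β⁻¹ * (2 / β) ^ n else 0) + if i = N then β⁻¹ * (2 / β) ^ n else 0) := by
      intro i hi'
      have hiN : i ≤ N := Nat.lt_succ_iff.1 (Finset.mem_range.1 hi')
      have hpos : 0 ≤ β⁻¹ * (2 / β) ^ n := by positivity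
      by_cases hc : i = 0 ∨ i = N
      · have := ih (lo_nonneg p i) (lo_le_hi hpq hN hiN) (hi_le_one p q i)
        have h2 := mul_le_mul_of_nonneg_left this (inv_nonneg.2 hβ0.le)
        have h3 : β⁻¹ * (2 / β) ^ n ≤ (if i = 0 then β⁻¹ * (2 / β) ^ n else 0) +
            if i = N then β⁻¹ * (2 / β) ^ n else 0 := by
          rcases hc with h | h
          · rw [if_pos h]
            split_ifs <;> linarith
          · rw [if_pos h]
            split_ifs <;> linarith
        calc β⁻¹ * MM B (lo p i) (hi p q i)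
            ≤ β⁻¹ * (M * (hi p q i - lo p i) + (2 / β) ^ n) := h2
          _ = β⁻¹ * M * (hi p q i - lo p i) + β⁻¹ * (2 / β) ^ n := by ring
          _ ≤ _ := by linarith
      · push Not at hc
        have hlo : lo p i = 0 := by
          unfold lo
          refine max_eq_right ?_
          have h2 := (Int.lt_floor_add_one p).le
          have h3 : (1 : ℝ) ≤ i := by
            have : 1 ≤ i := by omega
            exact_mod_cast this
          push_cast
          linarith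
        have hhi : hi p q i = 1 := by
          unfold hi
          refine min_eq_right ?_
          have h2 := Int.floor_le q
          have h3 : ((⌊p⌋ + i + 1 : ℤ) : ℝ) ≤ ⌊q⌋ := by
            exact_mod_cast (by omega : (⌊p⌋ + i + 1 : ℤ) ≤ ⌊q⌋)
          push_cast at h3 ⊢
          linarith
        rw [hlo, hhi, if_neg hc.1, if_neg hc.2]
        linarith
    refine (Finset.sum_le_sum h1).trans ?_
    rw [Finset.sum_add_distrib, Finset.sum_add_distrib, ← Finset.mul_sum, sum_len hpq hN]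
    rw [Finset.sum_ite_eq' , Finset.sum_ite_eq', if_pos (Finset.mem_range.2 (by omega)),
      if_pos (Finset.mem_range.2 (by omega)), hp, hq, pow_succ]
    refine le_of_eq ?_
    field_simp
    ring

/-- The zero-one law. -/
lemma zero_one {β γ : ℝ} (hβ : 2 < β) {B : Set ℝ} (hBm : MeasurableSet B)
    (hB : TT β γ ⁻¹' B = B) : volume (B ∩ Ico 0 1) = 0 ∨ volume (Bᶜ ∩ Ico 0 1) = 0 := by
  have hβ0 : 0 < β := by linarith
  have h1 : 2 / β < 1 := by rw [div_lt_one hβ0]; exact hβ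
  have hlim : Tendsto (fun n : ℕ => (2 / β) ^ n) atTop (𝓝 0) :=
    tendsto_pow_atTop_nhds_zero_of_lt_one (by positivity) h1
  have hle : ∀ {B : Set ℝ}, TT β γ ⁻¹' B = B → ∀ {u v : ℝ}, 0 ≤ u → u ≤ v → v ≤ 1 →
      MM B u v ≤ MM B 0 1 * (v - u) := by
    intro B hB u v hu huv hv
    have h2 : Tendsto (fun n : ℕ => MM B 0 1 * (v - u) + (2 / β) ^ n) atTop
        (𝓝 (MM B 0 1 * (v - u) + 0)) := tendsto_const_nhds.add hlim
    rw [add_zero] at h2
    exact ge_of_tendsto' h2 fun n => density_le hβ hB n hu huv hv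
  have hadd : ∀ {u v : ℝ}, u ≤ v → MM B u v + MM Bᶜ u v = v - u := by
    intro u v huv
    unfold MM
    rw [← ENNReal.toReal_add (MM_ne_top _ _ _) (MM_ne_top _ _ _)]
    have h2 : volume (B ∩ Ico u v) + volume (Bᶜ ∩ Ico u v) = volume (Ico u v) := by
      rw [inter_comm B, inter_comm Bᶜ, ← Set.sdiff_eq]
      exact measure_inter_add_sdiff _ hBm
    rw [h2, Real.volume_Ico, ENNReal.toReal_ofReal (by linarith)]
  have hBc : TT β γ ⁻¹' Bᶜ = Bᶜ := by rw [preimage_compl, hB]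
  set θ := MM B 0 1 with hθ
  have hθ1 : θ + MM Bᶜ 0 1 = 1 := by rw [hθ, hadd zero_le_one]; ring
  have heq : ∀ {u v : ℝ}, 0 ≤ u → u ≤ v → v ≤ 1 → MM B u v = θ * (v - u) := by
    intro u v hu huv hv
    have h2 := hle hB hu huv hv
    have h3 := hle hBc hu huv hv
    have h4 := hadd huv
    have h5 : MM Bᶜ 0 1 = 1 - θ := by linarith
    rw [h5] at h3
    apply le_antisymm h2
    nlinarith
  have hθ0 : 0 ≤ θ := MM_nonneg _ _ _
  have hmeas : volume.restrict (B ∩ Ico 0 1) = ENNReal.ofReal θ • volume.restrict (Ico 0 1) := by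
    refine Measure.ext_of_Ico _ _ fun u v huv => ?_
    rw [Measure.smul_apply, Measure.restrict_apply measurableSet_Ico,
      Measure.restrict_apply measurableSet_Ico, smul_eq_mul]
    have e1 : Ico u v ∩ (B ∩ Ico 0 1) = B ∩ Ico (max u 0) (min v 1) := by
      rw [← Ico_inter_Ico]
      ext z
      simp only [mem_inter_iff]
      tauto
    rw [e1, Ico_inter_Ico]
    by_cases hc : max u 0 ≤ min v 1
    · have h2 := heq (le_max_right u 0) hc (min_le_right v 1)
      rw [Real.volume_Ico, ← ENNReal.ofReal_mul hθ0, ← h2, MM, ENNReal.ofReal_toReal]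
      exact MM_ne_top _ _ _
    · rw [Ico_eq_empty (by intro h; exact hc h.le)]
      simp
  have hself : volume.restrict (B ∩ Ico 0 1) (B ∩ Ico 0 1) =
      (ENNReal.ofReal θ • volume.restrict (Ico 0 1)) (B ∩ Ico 0 1) := by rw [hmeas]
  rw [Measure.smul_apply, Measure.restrict_apply (hBm.inter measurableSet_Ico),
    Measure.restrict_apply (hBm.inter measurableSet_Ico), inter_self, smul_eq_mul,
    inter_assoc, inter_self] at hself
  have h6 : volume (B ∩ Ico 0 1) = ENNReal.ofReal θ := by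
    rw [hθ, MM, ENNReal.ofReal_toReal (MM_ne_top _ _ _)]
  rw [h6, ← ENNReal.ofReal_mul hθ0] at hself
  have h7 : θ = θ * θ := by
    have := congrArg ENNReal.toReal hself
    rwa [ENNReal.toReal_ofReal hθ0, ENNReal.toReal_ofReal (by positivity)] at this
  have h8 : θ = 0 ∨ θ = 1 := by
    have : θ * (θ - 1) = 0 := by linarith
    rcases mul_eq_zero.1 this with h | h
    · left; exact h
    · right; linarith
  rcases h8 with h | h
  · left; rw [h6, h, ENNReal.ofReal_zero]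
  · right
    have h9 : MM Bᶜ 0 1 = 0 := by linarith
    rw [MM, ENNReal.toReal_eq_zero_iff] at h9
    exact h9.resolve_right (MM_ne_top _ _ _)

end Q92.BX
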